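import Mathlib

set_option autoImplicit false

namespace Pool.Agent.H38b4

open Real

noncomputable section

def cc (m : ℕ) : ℝ := cos (2 * π * (m / 33))
def c0 : ℝ := cc 1
def c1 : ℝ := cc 2
def c2 : ℝ := cc 4
def c3 : ℝ := cc 8
def c4 : ℝ := cc 16
def T3 (x : ℝ) : ℝ := 4 * x ^ 3 - 3 * x
def lam : ℝ := (5 - (c0 + c1 + c2 + c3 + c4)) / (5 - (T3 c0 + T3 c1 + T3 c2 + T3 c3 + T3 c4))
def Ft (x : ℝ) : ℝ := x - 1 + lam * (1 - T3 x)
def g0 : ℝ := 0
def g1 : ℝ := g0 + Ft c0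
def g2 : ℝ := g1 + Ft c1
def g3 : ℝ := g2 + Ft c2
def g4 : ℝ := g3 + Ft c3

lemma cc_two (m : ℕ) : cc (2 * m) = 2 * cc m ^ 2 - 1 := by
  unfold cc
  rw [← cos_two_mul]
  congr 1
  push_cast
  ring

lemma cc_sym (m : ℕ) (h : m ≤ 33) : cc (33 - m) = cc m := by
  unfold cc
  rw [← cos_two_pi_sub (2 * π * (m / 33))]
  congr 1
  rw [Nat.cast_sub h]
  push_cast
  ring

lemma e1 : c1 = 2 * c0 ^ 2 - 1 := cc_two 1
lemma e2 : c2 = 2 * c1 ^ 2 - 1 := cc_two 2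
lemma e3 : c3 = 2 * c2 ^ 2 - 1 := cc_two 4
lemma e4 : c4 = 2 * c3 ^ 2 - 1 := cc_two 8
lemma e0 : c0 = 2 * (-c4) ^ 2 - 1 := by
  rw [neg_sq]
  exact (cc_sym 32 (by norm_num)).trans (cc_two 16)

lemma cc_nonneg (m : ℕ) (h : m ≤ 8) : 0 ≤ cc m := by
  have h1 : (m : ℝ) ≤ 8 := by exact_mod_cast h
  have h0 : (0 : ℝ) ≤ m := Nat.cast_nonneg m
  unfold cc
  apply cos_nonneg_of_mem_Icc
  constructor <;> nlinarith [pi_pos]

lemma c4_nonpos : 0 ≤ -c4 := by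
  unfold c4 cc
  rw [neg_nonneg]
  apply cos_nonpos_of_pi_div_two_le_of_le <;> push_cast <;> nlinarith [pi_pos]

lemma step {x y lo hi : ℝ} (l h : ℝ) (hx : 0 ≤ x) (e : y = 2 * x ^ 2 - 1) (hy : lo ≤ y ∧ y ≤ hi)
    (hn : 0 ≤ h ∧ 2 * l ^ 2 - 1 ≤ lo ∧ hi ≤ 2 * h ^ 2 - 1) : l ≤ x ∧ x ≤ h := by
  obtain ⟨h1, h2⟩ := hy
  obtain ⟨h3, h4, h5⟩ := hn
  constructor
  · by_contra hc
    push Not at hc
    nlinarith
  · by_contra hc
    push Not at hc
    nlinarith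

lemma flip {x l h : ℝ} (hx : l ≤ -x ∧ -x ≤ h) : -h ≤ x ∧ x ≤ -l := ⟨by linarith [hx.2], by linarith [hx.1]⟩

lemma cb : ((122741087 / 125000000 : ℝ) ≤ c0 ∧ c0 ≤ (490964349 / 500000000 : ℝ)) ∧ ((928367931 / 1000000000 : ℝ) ≤ c1 ∧ c1 ≤ (464183967 / 500000000 : ℝ)) ∧ ((723734033 / 1000000000 : ℝ) ≤ c2 ∧ c2 ≤ (18093351 / 25000000 : ℝ)) ∧ ((47581903 / 1000000000 : ℝ) ≤ c3 ∧ c3 ≤ (47581919 / 1000000000 : ℝ)) ∧ ((-(39818877 / 40000000) : ℝ) ≤ c4 ∧ c4 ≤ (-(497735961 / 500000000) : ℝ)) := by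
  have s0 : (0 : ℝ) ≤ c0 ∧ c0 ≤ 1 := ⟨cc_nonneg 1 (by norm_num), cos_le_one _⟩
  have s1 := flip (step (x := -c4) (707106781 / 1000000000 : ℝ) (1 : ℝ) c4_nonpos e0 s0 (by norm_num))
  have s2 := step (x := c3) (0 : ℝ) (382683433 / 1000000000 : ℝ) (cc_nonneg 8 (by norm_num)) e4 s1 (by norm_num)
  have s3 := step (x := c2) (707106781 / 1000000000 : ℝ) (831469613 / 1000000000 : ℝ) (cc_nonneg 4 (by norm_num)) e3 s2 (by norm_num)
  have s4 := step (x := c1) (230969883 / 250000000 : ℝ) (59808771 / 62500000 : ℝ) (cc_nonneg 2 (by norm_num)) e2 s3 (by norm_num)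
  have s5 := step (x := c0) (1532477 / 1562500 : ℝ) (989176511 / 1000000000 : ℝ) (cc_nonneg 1 (by norm_num)) e1 s4 (by norm_num)
  have s6 := flip (step (x := -c4) (497592363 / 500000000 : ℝ) (997290457 / 1000000000 : ℝ) c4_nonpos e0 s5 (by norm_num))
  have s7 := step (x := c3) (1840361 / 50000000 : ℝ) (24533839 / 500000000 : ℝ) (cc_nonneg 8 (by norm_num)) e4 s6 (by norm_num)
  have s8 := step (x := c2) (360001253 / 500000000 : ℝ) (144849417 / 200000000 : ℝ) (cc_nonneg 4 (by norm_num)) e3 s7 (by norm_num)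
  have s9 := step (x := c1) (37094501 / 40000000 : ℝ) (464253041 / 500000000 : ℝ) (cc_nonneg 2 (by norm_num)) e2 s8 (by norm_num)
  have s10 := step (x := c0) (490836343 / 500000000 : ℝ) (98196387 / 100000000 : ℝ) (cc_nonneg 1 (by norm_num)) e1 s9 (by norm_num)
  have s11 := flip (step (x := -c4) (497703813 / 500000000 : ℝ) (248870189 / 250000000 : ℝ) c4_nonpos e0 s10 (by norm_num))
  have s12 := step (x := c3) (47535481 / 1000000000 : ℝ) (23959273 / 500000000 : ℝ) (cc_nonneg 8 (by norm_num)) e4 s11 (by norm_num)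
  have s13 := step (x := c2) (723717997 / 1000000000 : ℝ) (90481289 / 125000000 : ℝ) (cc_nonneg 4 (by norm_num)) e3 s12 (by norm_num)
  have s14 := step (x := c1) (928363613 / 1000000000 : ℝ) (232099811 / 250000000 : ℝ) (cc_nonneg 2 (by norm_num)) e2 s13 (by norm_num)
  have s15 := step (x := c0) (981927597 / 1000000000 : ℝ) (98193667 / 100000000 : ℝ) (cc_nonneg 1 (by norm_num)) e1 s14 (by norm_num)
  have s16 := flip (step (x := -c4) (497735823 / 500000000 : ℝ) (39818957 / 40000000 : ℝ) c4_nonpos e0 s15 (by norm_num))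
  have s17 := step (x := c3) (47571393 / 1000000000 : ℝ) (47583369 / 1000000000 : ℝ) (cc_nonneg 8 (by norm_num)) e4 s16 (by norm_num)
  have s18 := step (x := c2) (723730403 / 1000000000 : ℝ) (723734541 / 1000000000 : ℝ) (cc_nonneg 4 (by norm_num)) e3 s17 (by norm_num)
  have s19 := step (x := c1) (464183477 / 500000000 : ℝ) (928368069 / 1000000000 : ℝ) (cc_nonneg 2 (by norm_num)) e2 s18 (by norm_num)
  have s20 := step (x := c0) (1917829 / 1953125 : ℝ) (245482183 / 250000000 : ℝ) (cc_nonneg 1 (by norm_num)) e1 s19 (by norm_num)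
  have s21 := flip (step (x := -c4) (995471859 / 1000000000 : ℝ) (248867983 / 250000000 : ℝ) c4_nonpos e0 s20 (by norm_num))
  have s22 := step (x := c3) (23790933 / 500000000 : ℝ) (190329 / 4000000 : ℝ) (cc_nonneg 8 (by norm_num)) e4 s21 (by norm_num)
  have s23 := step (x := c2) (36186701 / 50000000 : ℝ) (361867077 / 500000000 : ℝ) (cc_nonneg 4 (by norm_num)) e3 s22 (by norm_num)
  have s24 := step (x := c1) (116045991 / 125000000 : ℝ) (185673593 / 200000000 : ℝ) (cc_nonneg 2 (by norm_num)) e2 s23 (by norm_num)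
  have s25 := step (x := c0) (196385739 / 200000000 : ℝ) (490964353 / 500000000 : ℝ) (cc_nonneg 1 (by norm_num)) e1 s24 (by norm_num)
  have s26 := flip (step (x := -c4) (497735961 / 500000000 : ℝ) (39818877 / 40000000 : ℝ) c4_nonpos e0 s25 (by norm_num))
  have s27 := step (x := c3) (47581903 / 1000000000 : ℝ) (47581919 / 1000000000 : ℝ) (cc_nonneg 8 (by norm_num)) e4 s26 (by norm_num)
  have s28 := step (x := c2) (723734033 / 1000000000 : ℝ) (18093351 / 25000000 : ℝ) (cc_nonneg 4 (by norm_num)) e3 s27 (by norm_num)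
  have s29 := step (x := c1) (928367931 / 1000000000 : ℝ) (464183967 / 500000000 : ℝ) (cc_nonneg 2 (by norm_num)) e2 s28 (by norm_num)
  have s30 := step (x := c0) (122741087 / 125000000 : ℝ) (490964349 / 500000000 : ℝ) (cc_nonneg 1 (by norm_num)) e1 s29 (by norm_num)
  exact ⟨⟨by linarith [s30.1], by linarith [s30.2]⟩, ⟨by linarith [s29.1], by linarith [s29.2]⟩, ⟨by linarith [s28.1], by linarith [s28.2]⟩, ⟨by linarith [s27.1], by linarith [s27.2]⟩, ⟨by linarith [s26.1], by linarith [s26.2]⟩⟩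

lemma c0l : (122741087 / 125000000 : ℝ) ≤ c0 := cb.1.1
lemma c0h : c0 ≤ (490964349 / 500000000 : ℝ) := cb.1.2
lemma c1l : (928367931 / 1000000000 : ℝ) ≤ c1 := cb.2.1.1
lemma c1h : c1 ≤ (464183967 / 500000000 : ℝ) := cb.2.1.2
lemma c2l : (723734033 / 1000000000 : ℝ) ≤ c2 := cb.2.2.1.1
lemma c2h : c2 ≤ (18093351 / 25000000 : ℝ) := cb.2.2.1.2
lemma c3l : (47581903 / 1000000000 : ℝ) ≤ c3 := cb.2.2.2.1.1
lemma c3h : c3 ≤ (47581919 / 1000000000 : ℝ) := cb.2.2.2.1.2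
lemma c4l : (-(39818877 / 40000000) : ℝ) ≤ c4 := cb.2.2.2.2.1
lemma c4h : c4 ≤ (-(497735961 / 500000000) : ℝ) := cb.2.2.2.2.2

lemma T3_lip {x y : ℝ} (hx : |x| ≤ 1) (hy : |y| ≤ 1) (h : y ≤ x) :
    T3 y - 9 * (x - y) ≤ T3 x ∧ T3 x ≤ T3 y + 9 * (x - y) := by
  have e : T3 x - T3 y = (x - y) * (4 * (x ^ 2 + x * y + y ^ 2) - 3) := by unfold T3; ring
  rw [abs_le] at hx hy
  have h1 : 4 * (x ^ 2 + x * y + y ^ 2) - 3 ≤ 9 := by nlinarith
  have h2 : -9 ≤ 4 * (x ^ 2 + x * y + y ^ 2) - 3 := by nlinarith [sq_nonneg (x + y)]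
  have h3 := sub_nonneg.2 h
  constructor <;> nlinarith

lemma t0b : (1682507 / 2000000 : ℝ) ≤ T3 c0 ∧ T3 c0 ≤ (16825071 / 20000000 : ℝ) := by
  have h := T3_lip (x := c0) (y := (122741087 / 125000000 : ℝ)) (abs_le.2 ⟨by linarith [c0l], by linarith [c0h]⟩)
    (abs_le.2 ⟨by norm_num, by norm_num⟩) c0l
  have e1 : (420626759 / 500000000 : ℝ) ≤ T3 (122741087 / 125000000 : ℝ) := by unfold T3; norm_num
  have e2 : T3 (122741087 / 125000000 : ℝ) ≤ (210313383 / 250000000 : ℝ) := by unfold T3; norm_num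
  constructor <;> linarith [h.1, h.2, c0h]

lemma t1b : (41541497 / 100000000 : ℝ) ≤ T3 c1 ∧ T3 c1 ≤ (41541503 / 100000000 : ℝ) := by
  have h := T3_lip (x := c1) (y := (928367931 / 1000000000 : ℝ)) (abs_le.2 ⟨by linarith [c1l], by linarith [c1h]⟩)
    (abs_le.2 ⟨by norm_num, by norm_num⟩) c1l
  have e1 : (415414997 / 1000000000 : ℝ) ≤ T3 (928367931 / 1000000000 : ℝ) := by unfold T3; norm_num
  have e2 : T3 (928367931 / 1000000000 : ℝ) ≤ (415415003 / 1000000000 : ℝ) := by unfold T3; norm_num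
  constructor <;> linarith [h.1, h.2, c1h]

lemma t2b : (-(32743041 / 50000000) : ℝ) ≤ T3 c2 ∧ T3 c2 ≤ (-(16371517 / 25000000) : ℝ) := by
  have h := T3_lip (x := c2) (y := (723734033 / 1000000000 : ℝ)) (abs_le.2 ⟨by linarith [c2l], by linarith [c2h]⟩)
    (abs_le.2 ⟨by norm_num, by norm_num⟩) c2l
  have e1 : (-(654860757 / 1000000000) : ℝ) ≤ T3 (723734033 / 1000000000 : ℝ) := by unfold T3; norm_num
  have e2 : T3 (723734033 / 1000000000 : ℝ) ≤ (-(654860743 / 1000000000) : ℝ) := by unfold T3; norm_num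
  constructor <;> linarith [h.1, h.2, c2h]

lemma t3b : (-(2846299 / 20000000) : ℝ) ≤ T3 c3 ∧ T3 c3 ≤ (-(2846293 / 20000000) : ℝ) := by
  have h := T3_lip (x := c3) (y := (47581903 / 1000000000 : ℝ)) (abs_le.2 ⟨by linarith [c3l], by linarith [c3h]⟩)
    (abs_le.2 ⟨by norm_num, by norm_num⟩) c3l
  have e1 : (-(71157403 / 500000000) : ℝ) ≤ T3 (47581903 / 1000000000 : ℝ) := by unfold T3; norm_num
  have e2 : T3 (47581903 / 1000000000 : ℝ) ≤ (-(71157397 / 500000000) : ℝ) := by unfold T3; norm_num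
  constructor <;> linarith [h.1, h.2, c3h]

lemma t4b : (-(95949303 / 100000000) : ℝ) ≤ T3 c4 ∧ T3 c4 ≤ (-(5996831 / 6250000) : ℝ) := by
  have h := T3_lip (x := c4) (y := (-(39818877 / 40000000) : ℝ)) (abs_le.2 ⟨by linarith [c4l], by linarith [c4h]⟩)
    (abs_le.2 ⟨by norm_num, by norm_num⟩) c4l
  have e1 : (-(959493003 / 1000000000) : ℝ) ≤ T3 (-(39818877 / 40000000) : ℝ) := by unfold T3; norm_num
  have e2 : T3 (-(39818877 / 40000000) : ℝ) ≤ (-(959492987 / 1000000000) : ℝ) := by unfold T3; norm_num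
  constructor <;> linarith [h.1, h.2, c4h]

lemma den_pos : 0 < 5 - (T3 c0 + T3 c1 + T3 c2 + T3 c3 + T3 c4) := by linarith [t0b.1, t0b.2, t1b.1, t1b.2, t2b.1, t2b.2, t3b.1, t3b.2, t4b.1, t4b.2]

lemma laml : (3012599 / 5000000 : ℝ) ≤ lam := by
  unfold lam
  rw [le_div_iff₀ den_pos]
  linarith [c0l, c0h, c1l, c1h, c2l, c2h, c3l, c3h, c4l, c4h, t0b.1, t0b.2, t1b.1, t1b.2, t2b.1, t2b.2, t3b.1, t3b.2, t4b.1, t4b.2]

lemma lamh : lam ≤ (15063 / 25000 : ℝ) := by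
  unfold lam
  rw [div_le_iff₀ den_pos]
  linarith [c0l, c0h, c1l, c1h, c2l, c2h, c3l, c3h, c4l, c4h, t0b.1, t0b.2, t1b.1, t1b.2, t2b.1, t2b.2, t3b.1, t3b.2, t4b.1, t4b.2]

lemma closing : g0 = g4 + Ft c4 := by
  have h : lam * (5 - (T3 c0 + T3 c1 + T3 c2 + T3 c3 + T3 c4)) = 5 - (c0 + c1 + c2 + c3 + c4) := by
    unfold lam
    exact div_mul_cancel₀ _ den_pos.ne'
  unfold g4 g3 g2 g1 Ft
  linarith

lemma lamT (x : ℝ) (h : x ≤ 1) : Ft x ≤ x - 1 + (15063 / 25000 : ℝ) * (1 - (4 * x ^ 3 - 3 * x)) := by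
  have h1 : 0 ≤ 1 - T3 x := by
    unfold T3
    nlinarith [mul_nonneg (sub_nonneg.2 h) (sq_nonneg (1 + 2 * x))]
  have h2 := mul_le_mul_of_nonneg_right lamh h1
  unfold Ft
  unfold T3 at *
  linarith

lemma f0b : (155153 / 2000000 : ℝ) ≤ Ft c0 ∧ Ft c0 ≤ (775767 / 10000000 : ℝ) := by
  have h1 : (3012599 / 5000000 : ℝ) * (1 - (16825071 / 20000000 : ℝ)) ≤ lam * (1 - T3 c0) :=
    mul_le_mul laml (by linarith [t0b.2]) (by norm_num) (by linarith [laml])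
  have h2 : lam * (1 - T3 c0) ≤ (15063 / 25000 : ℝ) * (1 - (1682507 / 2000000 : ℝ)) :=
    mul_le_mul lamh (by linarith [t0b.1]) (by linarith [t0b.2]) (by norm_num)
  unfold Ft
  constructor <;> linarith [c0l, c0h]

lemma f1b : (2805919 / 10000000 : ℝ) ≤ Ft c1 ∧ Ft c1 ≤ (1402961 / 5000000 : ℝ) := by
  have h1 : (3012599 / 5000000 : ℝ) * (1 - (41541503 / 100000000 : ℝ)) ≤ lam * (1 - T3 c1) :=
    mul_le_mul laml (by linarith [t1b.2]) (by norm_num) (by linarith [laml])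
  have h2 : lam * (1 - T3 c1) ≤ (15063 / 25000 : ℝ) * (1 - (41541497 / 100000000 : ℝ)) :=
    mul_le_mul lamh (by linarith [t1b.1]) (by linarith [t1b.2]) (by norm_num)
  unfold Ft
  constructor <;> linarith [c1l, c1h]

lemma f2b : (7208203 / 10000000 : ℝ) ≤ Ft c2 ∧ Ft c2 ≤ (450513 / 625000 : ℝ) := by
  have h1 : (3012599 / 5000000 : ℝ) * (1 - (-(16371517 / 25000000) : ℝ)) ≤ lam * (1 - T3 c2) :=
    mul_le_mul laml (by linarith [t2b.2]) (by norm_num) (by linarith [laml])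
  have h2 : lam * (1 - T3 c2) ≤ (15063 / 25000 : ℝ) * (1 - (-(32743041 / 50000000) : ℝ)) :=
    mul_le_mul lamh (by linarith [t2b.1]) (by linarith [t2b.2]) (by norm_num)
  unfold Ft
  constructor <;> linarith [c2l, c2h]

lemma f3b : (-(264151 / 1000000) : ℝ) ≤ Ft c3 ∧ Ft c3 ≤ (-(82547 / 312500) : ℝ) := by
  have h1 : (3012599 / 5000000 : ℝ) * (1 - (-(2846293 / 20000000) : ℝ)) ≤ lam * (1 - T3 c3) :=
    mul_le_mul laml (by linarith [t3b.2]) (by norm_num) (by linarith [laml])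
  have h2 : lam * (1 - T3 c3) ≤ (15063 / 25000 : ℝ) * (1 - (-(2846299 / 20000000) : ℝ)) :=
    mul_le_mul lamh (by linarith [t3b.1]) (by linarith [t3b.2]) (by norm_num)
  unfold Ft
  constructor <;> linarith [c3l, c3h]

lemma gd1 : g1 = g0 + Ft c0 := rfl
lemma gd2 : g2 = g1 + Ft c1 := rfl
lemma gd3 : g3 = g2 + Ft c2 := rfl
lemma gd4 : g4 = g3 + Ft c3 := rfl

lemma g0l : (0 : ℝ) ≤ g0 := le_rfl
lemma g0h : g0 ≤ (0 : ℝ) := le_rfl
lemma g1l : (155153 / 2000000 : ℝ) ≤ g1 := by unfold g1; linarith [g0l, f0b.1]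
lemma g1h : g1 ≤ (775767 / 10000000 : ℝ) := by unfold g1; linarith [g0h, f0b.2]
lemma g2l : (895421 / 2500000 : ℝ) ≤ g2 := by unfold g2; linarith [g1l, f1b.1]
lemma g2h : g2 ≤ (3581689 / 10000000 : ℝ) := by unfold g2; linarith [g1h, f1b.2]
lemma g3l : (10789887 / 10000000 : ℝ) ≤ g3 := by unfold g3; linarith [g2l, f2b.1]
lemma g3h : g3 ≤ (10789897 / 10000000 : ℝ) := by unfold g3; linarith [g2h, f2b.2]
lemma g4l : (8148377 / 10000000 : ℝ) ≤ g4 := by unfold g4; linarith [g3l, f3b.1]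
lemma g4h : g4 ≤ (8148393 / 10000000 : ℝ) := by unfold g4; linarith [g3h, f3b.2]

lemma Rbd {x z lo : ℝ} (hx : |x| ≤ 1) (hz : |z| ≤ 1) (hl : |lo| ≤ 1) (h1 : lo ≤ z)
    (h2 : z ≤ lo + 1 / 10000000) :
    |lam * (4 * (x ^ 2 + x * z + z ^ 2) - 3) - (3012599 / 5000000 : ℝ) * (4 * (x ^ 2 + x * lo + lo ^ 2) - 3)|
      ≤ 1 / 100000 := by
  rw [abs_le] at hx hz hl
  have a1 : 4 * (x ^ 2 + x * z + z ^ 2) - 3 ≤ 9 := by nlinarith
  have a2 : -9 ≤ 4 * (x ^ 2 + x * z + z ^ 2) - 3 := by nlinarith [sq_nonneg (x + z)]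
  have a3 : (z - lo) * (x + z + lo) ≤ 3 / 10000000 := by nlinarith
  have a4 : -3 / 10000000 ≤ (z - lo) * (x + z + lo) := by nlinarith
  have b1 := sub_nonneg.2 laml
  have b2 := lamh
  have a5 := mul_le_mul_of_nonneg_left a1 b1
  have a6 := mul_le_mul_of_nonneg_left a2 b1
  rw [abs_le]
  constructor <;> nlinarith


end

end Pool.Agent.H38b4
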