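import Mathlib
import Pool.Agent.H.MP_38b438_an.A

set_option autoImplicit false

namespace Pool.Agent.H38b4

open Real

noncomputable section

/-- the piecewise linear sub-action, in the variable `cos (2 π x)` -/
def G (y : ℝ) : ℝ :=
  if y ≤ (-(1997 / 2000) : ℝ) then ((549897 / 20000 : ℝ) + (267467 / 10000 : ℝ) * y) else
  if y ≤ c4 then (g4 + (5483 / 625 : ℝ) * (y - c4)) else
  if y ≤ (-(1983 / 2000) : ℝ) then (g4 + (27031 / 2000 : ℝ) * (y - c4)) else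
  if y ≤ (-(197 / 200) : ℝ) then ((162867 / 20000 : ℝ) + (18343 / 2500 : ℝ) * y) else
  if y ≤ (-(114 / 125) : ℝ) then ((577847 / 100000 : ℝ) + (49363 / 10000 : ℝ) * y) else
  if y ≤ (-(13 / 25) : ℝ) then ((202713 / 100000 : ℝ) + (823 / 1000 : ℝ) * y) else
  if y ≤ c3 then (g3 + (-(1833 / 2000) : ℝ) * (y - c3)) else
  if y ≤ (167 / 500 : ℝ) then (g3 + (-(1037 / 2000) : ℝ) * (y - c3)) else
  if y ≤ c2 then (g2 + (-(3671 / 2500) : ℝ) * (y - c2)) else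
  if y ≤ (431 / 500 : ℝ) then (g2 + (-(11539 / 10000) : ℝ) * (y - c2)) else
  if y ≤ c1 then (g1 + (-(18239 / 10000) : ℝ) * (y - c1)) else
  if y ≤ (121 / 125 : ℝ) then (g1 + (-(10661 / 10000) : ℝ) * (y - c1)) else
  if y ≤ c0 then (g0 + (-(12681 / 5000) : ℝ) * (y - c0)) else
  if y ≤ (2481 / 2500 : ℝ) then (g0 + (-(907 / 2500) : ℝ) * (y - c0)) else
  ((34317 / 6250 : ℝ) + (-(27683 / 5000) : ℝ) * y)

lemma G_meas : Measurable G := by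
  unfold G
  refine Measurable.ite measurableSet_Iic (by fun_prop) ?_
  refine Measurable.ite measurableSet_Iic (by fun_prop) ?_
  refine Measurable.ite measurableSet_Iic (by fun_prop) ?_
  refine Measurable.ite measurableSet_Iic (by fun_prop) ?_
  refine Measurable.ite measurableSet_Iic (by fun_prop) ?_
  refine Measurable.ite measurableSet_Iic (by fun_prop) ?_
  refine Measurable.ite measurableSet_Iic (by fun_prop) ?_
  refine Measurable.ite measurableSet_Iic (by fun_prop) ?_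
  refine Measurable.ite measurableSet_Iic (by fun_prop) ?_
  refine Measurable.ite measurableSet_Iic (by fun_prop) ?_
  refine Measurable.ite measurableSet_Iic (by fun_prop) ?_
  refine Measurable.ite measurableSet_Iic (by fun_prop) ?_
  refine Measurable.ite measurableSet_Iic (by fun_prop) ?_
  refine Measurable.ite measurableSet_Iic (by fun_prop) ?_
  fun_prop

lemma ite_bd {p : Prop} [Decidable p] {a b M : ℝ} (ha : |a| ≤ M) (hb : |b| ≤ M) :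
    |if p then a else b| ≤ M := by
  split_ifs <;> assumption

lemma G_bd (y : ℝ) (h : |y| ≤ 1) : |G y| ≤ 100 := by
  obtain ⟨h1, h2⟩ := abs_le.1 h
  unfold G
  refine ite_bd (abs_le.2 ⟨by linarith, by linarith⟩) ?_
  refine ite_bd (abs_le.2 ⟨by linarith [c4l, c4h, g4l, g4h], by linarith [c4l, c4h, g4l, g4h]⟩) ?_
  refine ite_bd (abs_le.2 ⟨by linarith [c4l, c4h, g4l, g4h], by linarith [c4l, c4h, g4l, g4h]⟩) ?_
  refine ite_bd (abs_le.2 ⟨by linarith, by linarith⟩) ?_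
  refine ite_bd (abs_le.2 ⟨by linarith, by linarith⟩) ?_
  refine ite_bd (abs_le.2 ⟨by linarith, by linarith⟩) ?_
  refine ite_bd (abs_le.2 ⟨by linarith [c3l, c3h, g3l, g3h], by linarith [c3l, c3h, g3l, g3h]⟩) ?_
  refine ite_bd (abs_le.2 ⟨by linarith [c3l, c3h, g3l, g3h], by linarith [c3l, c3h, g3l, g3h]⟩) ?_
  refine ite_bd (abs_le.2 ⟨by linarith [c2l, c2h, g2l, g2h], by linarith [c2l, c2h, g2l, g2h]⟩) ?_
  refine ite_bd (abs_le.2 ⟨by linarith [c2l, c2h, g2l, g2h], by linarith [c2l, c2h, g2l, g2h]⟩) ?_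
  refine ite_bd (abs_le.2 ⟨by linarith [c1l, c1h, g1l, g1h], by linarith [c1l, c1h, g1l, g1h]⟩) ?_
  refine ite_bd (abs_le.2 ⟨by linarith [c1l, c1h, g1l, g1h], by linarith [c1l, c1h, g1l, g1h]⟩) ?_
  refine ite_bd (abs_le.2 ⟨by linarith [c0l, c0h, g0l, g0h], by linarith [c0l, c0h, g0l, g0h]⟩) ?_
  refine ite_bd (abs_le.2 ⟨by linarith [c0l, c0h, g0l, g0h], by linarith [c0l, c0h, g0l, g0h]⟩) ?_
  exact abs_le.2 ⟨by linarith, by linarith⟩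

lemma G0 (y : ℝ) (h2 : y ≤ (-(1997 / 2000) : ℝ)) : G y = ((549897 / 20000 : ℝ) + (267467 / 10000 : ℝ) * y) := by
  unfold G
  rw [if_pos h2]

lemma G1 (y : ℝ) (h1 : (-(1997 / 2000) : ℝ) < y) (h2 : y ≤ c4) : G y = (g4 + (5483 / 625 : ℝ) * (y - c4)) := by
  unfold G
  rw [if_neg (not_le.2 (by linarith [c0l, c0h, c1l, c1h, c2l, c2h, c3l, c3h, c4l, c4h])), if_pos h2]

lemma G2 (y : ℝ) (h1 : c4 < y) (h2 : y ≤ (-(1983 / 2000) : ℝ)) : G y = (g4 + (27031 / 2000 : ℝ) * (y - c4)) := by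
  unfold G
  rw [if_neg (not_le.2 (by linarith [c0l, c0h, c1l, c1h, c2l, c2h, c3l, c3h, c4l, c4h])), if_neg (not_le.2 (by linarith [c0l, c0h, c1l, c1h, c2l, c2h, c3l, c3h, c4l, c4h])), if_pos h2]

lemma G3 (y : ℝ) (h1 : (-(1983 / 2000) : ℝ) < y) (h2 : y ≤ (-(197 / 200) : ℝ)) : G y = ((162867 / 20000 : ℝ) + (18343 / 2500 : ℝ) * y) := by
  unfold G
  rw [if_neg (not_le.2 (by linarith [c0l, c0h, c1l, c1h, c2l, c2h, c3l, c3h, c4l, c4h])), if_neg (not_le.2 (by linarith [c0l, c0h, c1l, c1h, c2l, c2h, c3l, c3h, c4l, c4h])), if_neg (not_le.2 (by linarith [c0l, c0h, c1l, c1h, c2l, c2h, c3l, c3h, c4l, c4h])), if_pos h2]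

lemma G4 (y : ℝ) (h1 : (-(197 / 200) : ℝ) < y) (h2 : y ≤ (-(114 / 125) : ℝ)) : G y = ((577847 / 100000 : ℝ) + (49363 / 10000 : ℝ) * y) := by
  unfold G
  rw [if_neg (not_le.2 (by linarith [c0l, c0h, c1l, c1h, c2l, c2h, c3l, c3h, c4l, c4h])), if_neg (not_le.2 (by linarith [c0l, c0h, c1l, c1h, c2l, c2h, c3l, c3h, c4l, c4h])), if_neg (not_le.2 (by linarith [c0l, c0h, c1l, c1h, c2l, c2h, c3l, c3h, c4l, c4h])), if_neg (not_le.2 (by linarith [c0l, c0h, c1l, c1h, c2l, c2h, c3l, c3h, c4l, c4h])), if_pos h2]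

lemma G5 (y : ℝ) (h1 : (-(114 / 125) : ℝ) < y) (h2 : y ≤ (-(13 / 25) : ℝ)) : G y = ((202713 / 100000 : ℝ) + (823 / 1000 : ℝ) * y) := by
  unfold G
  rw [if_neg (not_le.2 (by linarith [c0l, c0h, c1l, c1h, c2l, c2h, c3l, c3h, c4l, c4h])), if_neg (not_le.2 (by linarith [c0l, c0h, c1l, c1h, c2l, c2h, c3l, c3h, c4l, c4h])), if_neg (not_le.2 (by linarith [c0l, c0h, c1l, c1h, c2l, c2h, c3l, c3h, c4l, c4h])), if_neg (not_le.2 (by linarith [c0l, c0h, c1l, c1h, c2l, c2h, c3l, c3h, c4l, c4h])), if_neg (not_le.2 (by linarith [c0l, c0h, c1l, c1h, c2l, c2h, c3l, c3h, c4l, c4h])), if_pos h2]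

lemma G6 (y : ℝ) (h1 : (-(13 / 25) : ℝ) < y) (h2 : y ≤ c3) : G y = (g3 + (-(1833 / 2000) : ℝ) * (y - c3)) := by
  unfold G
  rw [if_neg (not_le.2 (by linarith [c0l, c0h, c1l, c1h, c2l, c2h, c3l, c3h, c4l, c4h])), if_neg (not_le.2 (by linarith [c0l, c0h, c1l, c1h, c2l, c2h, c3l, c3h, c4l, c4h])), if_neg (not_le.2 (by linarith [c0l, c0h, c1l, c1h, c2l, c2h, c3l, c3h, c4l, c4h])), if_neg (not_le.2 (by linarith [c0l, c0h, c1l, c1h, c2l, c2h, c3l, c3h, c4l, c4h])), if_neg (not_le.2 (by linarith [c0l, c0h, c1l, c1h, c2l, c2h, c3l, c3h, c4l, c4h])), if_neg (not_le.2 (by linarith [c0l, c0h, c1l, c1h, c2l, c2h, c3l, c3h, c4l, c4h])), if_pos h2]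

lemma G7 (y : ℝ) (h1 : c3 < y) (h2 : y ≤ (167 / 500 : ℝ)) : G y = (g3 + (-(1037 / 2000) : ℝ) * (y - c3)) := by
  unfold G
  rw [if_neg (not_le.2 (by linarith [c0l, c0h, c1l, c1h, c2l, c2h, c3l, c3h, c4l, c4h])), if_neg (not_le.2 (by linarith [c0l, c0h, c1l, c1h, c2l, c2h, c3l, c3h, c4l, c4h])), if_neg (not_le.2 (by linarith [c0l, c0h, c1l, c1h, c2l, c2h, c3l, c3h, c4l, c4h])), if_neg (not_le.2 (by linarith [c0l, c0h, c1l, c1h, c2l, c2h, c3l, c3h, c4l, c4h])), if_neg (not_le.2 (by linarith [c0l, c0h, c1l, c1h, c2l, c2h, c3l, c3h, c4l, c4h])), if_neg (not_le.2 (by linarith [c0l, c0h, c1l, c1h, c2l, c2h, c3l, c3h, c4l, c4h])), if_neg (not_le.2 (by linarith [c0l, c0h, c1l, c1h, c2l, c2h, c3l, c3h, c4l, c4h])), if_pos h2]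

lemma G8 (y : ℝ) (h1 : (167 / 500 : ℝ) < y) (h2 : y ≤ c2) : G y = (g2 + (-(3671 / 2500) : ℝ) * (y - c2)) := by
  unfold G
  rw [if_neg (not_le.2 (by linarith [c0l, c0h, c1l, c1h, c2l, c2h, c3l, c3h, c4l, c4h])), if_neg (not_le.2 (by linarith [c0l, c0h, c1l, c1h, c2l, c2h, c3l, c3h, c4l, c4h])), if_neg (not_le.2 (by linarith [c0l, c0h, c1l, c1h, c2l, c2h, c3l, c3h, c4l, c4h])), if_neg (not_le.2 (by linarith [c0l, c0h, c1l, c1h, c2l, c2h, c3l, c3h, c4l, c4h])), if_neg (not_le.2 (by linarith [c0l, c0h, c1l, c1h, c2l, c2h, c3l, c3h, c4l, c4h])), if_neg (not_le.2 (by linarith [c0l, c0h, c1l, c1h, c2l, c2h, c3l, c3h, c4l, c4h])), if_neg (not_le.2 (by linarith [c0l, c0h, c1l, c1h, c2l, c2h, c3l, c3h, c4l, c4h])), if_neg (not_le.2 (by linarith [c0l, c0h, c1l, c1h, c2l, c2h, c3l, c3h, c4l, c4h])), if_pos h2]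

lemma G9 (y : ℝ) (h1 : c2 < y) (h2 : y ≤ (431 / 500 : ℝ)) : G y = (g2 + (-(11539 / 10000) : ℝ) * (y - c2)) := by
  unfold G
  rw [if_neg (not_le.2 (by linarith [c0l, c0h, c1l, c1h, c2l, c2h, c3l, c3h, c4l, c4h])), if_neg (not_le.2 (by linarith [c0l, c0h, c1l, c1h, c2l, c2h, c3l, c3h, c4l, c4h])), if_neg (not_le.2 (by linarith [c0l, c0h, c1l, c1h, c2l, c2h, c3l, c3h, c4l, c4h])), if_neg (not_le.2 (by linarith [c0l, c0h, c1l, c1h, c2l, c2h, c3l, c3h, c4l, c4h])), if_neg (not_le.2 (by linarith [c0l, c0h, c1l, c1h, c2l, c2h, c3l, c3h, c4l, c4h])), if_neg (not_le.2 (by linarith [c0l, c0h, c1l, c1h, c2l, c2h, c3l, c3h, c4l, c4h])), if_neg (not_le.2 (by linarith [c0l, c0h, c1l, c1h, c2l, c2h, c3l, c3h, c4l, c4h])), if_neg (not_le.2 (by linarith [c0l, c0h, c1l, c1h, c2l, c2h, c3l, c3h, c4l, c4h])), if_neg (not_le.2 (by linarith [c0l, c0h, c1l, c1h, c2l, c2h, c3l, c3h, c4l,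 c4h])), if_pos h2]

lemma G10 (y : ℝ) (h1 : (431 / 500 : ℝ) < y) (h2 : y ≤ c1) : G y = (g1 + (-(18239 / 10000) : ℝ) * (y - c1)) := by
  unfold G
  rw [if_neg (not_le.2 (by linarith [c0l, c0h, c1l, c1h, c2l, c2h, c3l, c3h, c4l, c4h])), if_neg (not_le.2 (by linarith [c0l, c0h, c1l, c1h, c2l, c2h, c3l, c3h, c4l, c4h])), if_neg (not_le.2 (by linarith [c0l, c0h, c1l, c1h, c2l, c2h, c3l, c3h, c4l, c4h])), if_neg (not_le.2 (by linarith [c0l, c0h, c1l, c1h, c2l, c2h, c3l, c3h, c4l, c4h])), if_neg (not_le.2 (by linarith [c0l, c0h, c1l, c1h, c2l, c2h, c3l, c3h, c4l, c4h])), if_neg (not_le.2 (by linarith [c0l, c0h, c1l, c1h, c2l, c2h, c3l, c3h, c4l, c4h])), if_neg (not_le.2 (by linarith [c0l, c0h, c1l, c1h, c2l, c2h, c3l, c3h, c4l, c4h])), if_neg (not_le.2 (by linarith [c0l, c0h, c1l, c1h, c2l, c2h, c3l, c3h, c4l, c4h])), if_neg (not_le.2 (by linarith [c0l, c0h, c1l, c1h, c2l,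 c2h, c3l, c3h, c4l, c4h])), if_neg (not_le.2 (by linarith [c0l, c0h, c1l, c1h, c2l, c2h, c3l, c3h, c4l, c4h])), if_pos h2]

lemma G11 (y : ℝ) (h1 : c1 < y) (h2 : y ≤ (121 / 125 : ℝ)) : G y = (g1 + (-(10661 / 10000) : ℝ) * (y - c1)) := by
  unfold G
  rw [if_neg (not_le.2 (by linarith [c0l, c0h, c1l, c1h, c2l, c2h, c3l, c3h, c4l, c4h])), if_neg (not_le.2 (by linarith [c0l, c0h, c1l, c1h, c2l, c2h, c3l, c3h, c4l, c4h])), if_neg (not_le.2 (by linarith [c0l, c0h, c1l, c1h, c2l, c2h, c3l, c3h, c4l, c4h])), if_neg (not_le.2 (by linarith [c0l, c0h, c1l, c1h, c2l, c2h, c3l, c3h, c4l, c4h])), if_neg (not_le.2 (by linarith [c0l, c0h, c1l, c1h, c2l, c2h, c3l, c3h, c4l, c4h])), if_neg (not_le.2 (by linarith [c0l, c0h, c1l, c1h, c2l, c2h, c3l, c3h, c4l, c4h])), if_neg (not_le.2 (by linarith [c0l, c0h, c1l, c1h, c2l, c2h, c3l, c3h, c4l, c4h])), if_neg (not_le.2 (by linarith [c0l,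 c0h, c1l, c1h, c2l, c2h, c3l, c3h, c4l, c4h])), if_neg (not_le.2 (by linarith [c0l, c0h, c1l, c1h, c2l, c2h, c3l, c3h, c4l, c4h])), if_neg (not_le.2 (by linarith [c0l, c0h, c1l, c1h, c2l, c2h, c3l, c3h, c4l, c4h])), if_neg (not_le.2 (by linarith [c0l, c0h, c1l, c1h, c2l, c2h, c3l, c3h, c4l, c4h])), if_pos h2]

lemma G12 (y : ℝ) (h1 : (121 / 125 : ℝ) < y) (h2 : y ≤ c0) : G y = (g0 + (-(12681 / 5000) : ℝ) * (y - c0)) := by
  unfold G
  rw [if_neg (not_le.2 (by linarith [c0l, c0h, c1l, c1h, c2l, c2h, c3l, c3h, c4l, c4h])), if_neg (not_le.2 (by linarith [c0l, c0h, c1l, c1h, c2l, c2h, c3l, c3h, c4l, c4h])), if_neg (not_le.2 (by linarith [c0l, c0h, c1l, c1h, c2l, c2h, c3l, c3h, c4l, c4h])), if_neg (not_le.2 (by linarith [c0l, c0h, c1l, c1h, c2l, c2h, c3l, c3h, c4l, c4h])), if_neg (not_le.2 (by linarith [c0l, c0h, c1l, c1h, c2l, c2h, c3l, c3h, c4l, c4h])), if_neg (not_le.2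 (by linarith [c0l, c0h, c1l, c1h, c2l, c2h, c3l, c3h, c4l, c4h])), if_neg (not_le.2 (by linarith [c0l, c0h, c1l, c1h, c2l, c2h, c3l, c3h, c4l, c4h])), if_neg (not_le.2 (by linarith [c0l, c0h, c1l, c1h, c2l, c2h, c3l, c3h, c4l, c4h])), if_neg (not_le.2 (by linarith [c0l, c0h, c1l, c1h, c2l, c2h, c3l, c3h, c4l, c4h])), if_neg (not_le.2 (by linarith [c0l, c0h, c1l, c1h, c2l, c2h, c3l, c3h, c4l, c4h])), if_neg (not_le.2 (by linarith [c0l, c0h, c1l, c1h, c2l, c2h, c3l, c3h, c4l, c4h])), if_neg (not_le.2 (by linarith [c0l, c0h, c1l, c1h, c2l, c2h, c3l, c3h, c4l, c4h])), if_pos h2]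

lemma G13 (y : ℝ) (h1 : c0 < y) (h2 : y ≤ (2481 / 2500 : ℝ)) : G y = (g0 + (-(907 / 2500) : ℝ) * (y - c0)) := by
  unfold G
  rw [if_neg (not_le.2 (by linarith [c0l, c0h, c1l, c1h, c2l, c2h, c3l, c3h, c4l, c4h])), if_neg (not_le.2 (by linarith [c0l, c0h, c1l, c1h, c2l, c2h, c3l, c3h, c4l, c4h])), if_neg (not_le.2 (by linarith [c0l, c0h, c1l, c1h, c2l, c2h, c3l, c3h, c4l, c4h])), if_neg (not_le.2 (by linarith [c0l, c0h, c1l, c1h, c2l, c2h, c3l, c3h, c4l, c4h])), if_neg (not_le.2 (by linarith [c0l, c0h, c1l, c1h, c2l, c2h, c3l, c3h, c4l, c4h])), if_neg (not_le.2 (by linarith [c0l, c0h, c1l, c1h, c2l, c2h, c3l, c3h, c4l, c4h])), if_neg (not_le.2 (by linarith [c0l, c0h, c1l, c1h, c2l, c2h, c3l, c3h, c4l, c4h])), if_neg (not_le.2 (by linarith [c0l, c0h, c1l, c1h, c2l, c2h, c3l, c3h, c4l, c4h])), if_neg (not_le.2 (by linarith [c0l, c0h, c1l, c1h, c2l, c2h, c3l, c3h, c4l,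 c4h])), if_neg (not_le.2 (by linarith [c0l, c0h, c1l, c1h, c2l, c2h, c3l, c3h, c4l, c4h])), if_neg (not_le.2 (by linarith [c0l, c0h, c1l, c1h, c2l, c2h, c3l, c3h, c4l, c4h])), if_neg (not_le.2 (by linarith [c0l, c0h, c1l, c1h, c2l, c2h, c3l, c3h, c4l, c4h])), if_neg (not_le.2 (by linarith [c0l, c0h, c1l, c1h, c2l, c2h, c3l, c3h, c4l, c4h])), if_pos h2]

lemma G14 (y : ℝ) (h1 : (2481 / 2500 : ℝ) < y) : G y = ((34317 / 6250 : ℝ) + (-(27683 / 5000) : ℝ) * y) := by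
  unfold G
  rw [if_neg (not_le.2 (by linarith [c0l, c0h, c1l, c1h, c2l, c2h, c3l, c3h, c4l, c4h])), if_neg (not_le.2 (by linarith [c0l, c0h, c1l, c1h, c2l, c2h, c3l, c3h, c4l, c4h])), if_neg (not_le.2 (by linarith [c0l, c0h, c1l, c1h, c2l, c2h, c3l, c3h, c4l, c4h])), if_neg (not_le.2 (by linarith [c0l, c0h, c1l, c1h, c2l, c2h, c3l, c3h, c4l, c4h])), if_neg (not_le.2 (by linarith [c0l, c0h, c1l, c1h, c2l, c2h, c3l, c3h, c4l, c4h])), if_neg (not_le.2 (by linarith [c0l, c0h, c1l, c1h, c2l, c2h, c3l, c3h, c4l, c4h])), if_neg (not_le.2 (by linarith [c0l, c0h, c1l, c1h, c2l, c2h, c3l, c3h, c4l, c4h])), if_neg (not_le.2 (by linarith [c0l, c0h, c1l, c1h, c2l, c2h, c3l, c3h, c4l, c4h])), if_neg (not_le.2 (by linarith [c0l, c0h, c1l, c1h, c2l, c2h, c3l, c3h, c4l, c4h])), if_neg (not_le.2 (by linarith [c0l, c0h, c1l, c1h, c2l, c2h, c3l, c3h, c4l, c4h])), if_neg (not_le.2 (by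 linarith [c0l, c0h, c1l, c1h, c2l, c2h, c3l, c3h, c4l, c4h])), if_neg (not_le.2 (by linarith [c0l, c0h, c1l, c1h, c2l, c2h, c3l, c3h, c4l, c4h])), if_neg (not_le.2 (by linarith [c0l, c0h, c1l, c1h, c2l, c2h, c3l, c3h, c4l, c4h])), if_neg (not_le.2 (by linarith [c0l, c0h, c1l, c1h, c2l, c2h, c3l, c3h, c4l, c4h]))]

lemma G2' (y : ℝ) (h1 : c4 ≤ y) (h2 : y ≤ (-(1983 / 2000) : ℝ)) : G y = (g4 + (27031 / 2000 : ℝ) * (y - c4)) := by
  rcases h1.eq_or_lt with h | h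
  · rw [← h, G1 c4 (by linarith [c4l]) le_rfl]; ring
  · exact G2 y h h2

lemma G7' (y : ℝ) (h1 : c3 ≤ y) (h2 : y ≤ (167 / 500 : ℝ)) : G y = (g3 + (-(1037 / 2000) : ℝ) * (y - c3)) := by
  rcases h1.eq_or_lt with h | h
  · rw [← h, G6 c3 (by linarith [c3l]) le_rfl]; ring
  · exact G7 y h h2

lemma G9' (y : ℝ) (h1 : c2 ≤ y) (h2 : y ≤ (431 / 500 : ℝ)) : G y = (g2 + (-(11539 / 10000) : ℝ) * (y - c2)) := by
  rcases h1.eq_or_lt with h | h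
  · rw [← h, G8 c2 (by linarith [c2l]) le_rfl]; ring
  · exact G9 y h h2

lemma G11' (y : ℝ) (h1 : c1 ≤ y) (h2 : y ≤ (121 / 125 : ℝ)) : G y = (g1 + (-(10661 / 10000) : ℝ) * (y - c1)) := by
  rcases h1.eq_or_lt with h | h
  · rw [← h, G10 c1 (by linarith [c1l]) le_rfl]; ring
  · exact G11 y h h2

lemma G13' (y : ℝ) (h1 : c0 ≤ y) (h2 : y ≤ (2481 / 2500 : ℝ)) : G y = (g0 + (-(907 / 2500) : ℝ) * (y - c0)) := by
  rcases h1.eq_or_lt with h | h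
  · rw [← h, G12 c0 (by linarith [c0l]) le_rfl]; ring
  · exact G13 y h h2


end

end Pool.Agent.H38b4
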