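import Mathlib
import Pool.Agent.H.MP_38b438_an.A

set_option autoImplicit false

namespace Pool.Agent.H38b4

open Real

noncomputable section

lemma n0_14 (x : ℝ) (h1 : (-1 : ℝ) ≤ x) (h2 : x ≤ (-(1997 / 2000) : ℝ)) :
    Ft x + ((549897 / 20000 : ℝ) + (267467 / 10000 : ℝ) * x) - ((34317 / 6250 : ℝ) + (-(27683 / 5000) : ℝ) * (2 * x ^ 2 - 1)) ≤ 0 := by
  have p := sub_nonneg.2 h1
  have q := sub_nonneg.2 h2
  linarith [lamT x (by linarith), mul_nonneg (mul_nonneg p p) p, mul_nonneg (mul_nonneg p p) q,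
    mul_nonneg (mul_nonneg p q) q, mul_nonneg (mul_nonneg q q) q]

lemma n1_13 (x : ℝ) (h1 : (-(1997 / 2000) : ℝ) ≤ x) (h2 : x ≤ (-(99809 / 100000) : ℝ)) :
    Ft x + (g4 + (5483 / 625 : ℝ) * (x - c4)) - (g0 + (-(907 / 2500) : ℝ) * ((2 * x ^ 2 - 1) - c0)) ≤ 0 := by
  have p := sub_nonneg.2 h1
  have q := sub_nonneg.2 h2
  linarith [lamT x (by linarith), mul_nonneg (mul_nonneg p p) p, mul_nonneg (mul_nonneg p p) q,
    mul_nonneg (mul_nonneg p q) q, mul_nonneg (mul_nonneg q q) q, c0l, c0h, g0l, g0h, c4l, c4h, g4l, g4h]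

lemma n1_14 (x : ℝ) (h1 : (-(1997 / 2000) : ℝ) ≤ x) (h2 : x ≤ (-(99809 / 100000) : ℝ)) :
    Ft x + (g4 + (5483 / 625 : ℝ) * (x - c4)) - ((34317 / 6250 : ℝ) + (-(27683 / 5000) : ℝ) * (2 * x ^ 2 - 1)) ≤ 0 := by
  have p := sub_nonneg.2 h1
  have q := sub_nonneg.2 h2
  linarith [lamT x (by linarith), mul_nonneg (mul_nonneg p p) p, mul_nonneg (mul_nonneg p p) q,
    mul_nonneg (mul_nonneg p q) q, mul_nonneg (mul_nonneg q q) q, c4l, c4h, g4l, g4h]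

lemma n2_13 (x : ℝ) (h1 : (-(99809 / 100000) : ℝ) ≤ x) (h2 : x ≤ c4) :
    Ft x + (g4 + (5483 / 625 : ℝ) * (x - c4)) - (g0 + (-(907 / 2500) : ℝ) * ((2 * x ^ 2 - 1) - c0)) ≤ 0 := by
  have p := sub_nonneg.2 h1
  have q := sub_nonneg.2 (h2.trans c4h)
  have hb := abs_le.1 (Rbd (x := x) (z := c4) (lo := (-(39818877 / 40000000) : ℝ))
    (abs_le.2 ⟨by linarith, by linarith⟩) (abs_le.2 ⟨by linarith [c4l], by linarith [c4h]⟩)
    (abs_le.2 ⟨by norm_num, by norm_num⟩) c4l (by linarith [c4h]))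
  have hR : 0 ≤ 1 + (5483 / 625 : ℝ) - 2 * (-(907 / 2500) : ℝ) * (x + c4) - lam * (4 * (x ^ 2 + x * c4 + c4 ^ 2) - 3) := by
    linarith [hb.1, hb.2, mul_nonneg p p, mul_nonneg p q, mul_nonneg q q, c4l, c4h]
  have e : Ft x + (g4 + (5483 / 625 : ℝ) * (x - c4)) - (g0 + (-(907 / 2500) : ℝ) * ((2 * x ^ 2 - 1) - c0)) =
      (x - c4) * (1 + (5483 / 625 : ℝ) - 2 * (-(907 / 2500) : ℝ) * (x + c4) - lam * (4 * (x ^ 2 + x * c4 + c4 ^ 2) - 3)) := by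
    rw [closing, e0]
    unfold Ft T3
    ring
  rw [e]
  exact mul_nonpos_of_nonpos_of_nonneg (sub_nonpos.2 h2) hR

lemma n3_12 (x : ℝ) (h1 : c4 ≤ x) (h2 : x ≤ (-(99197 / 100000) : ℝ)) :
    Ft x + (g4 + (27031 / 2000 : ℝ) * (x - c4)) - (g0 + (-(12681 / 5000) : ℝ) * ((2 * x ^ 2 - 1) - c0)) ≤ 0 := by
  have p := sub_nonneg.2 (c4l.trans h1)
  have q := sub_nonneg.2 h2
  have hb := abs_le.1 (Rbd (x := x) (z := c4) (lo := (-(39818877 / 40000000) : ℝ))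
    (abs_le.2 ⟨by linarith, by linarith⟩) (abs_le.2 ⟨by linarith [c4l], by linarith [c4h]⟩)
    (abs_le.2 ⟨by norm_num, by norm_num⟩) c4l (by linarith [c4h]))
  have hR : 1 + (27031 / 2000 : ℝ) - 2 * (-(12681 / 5000) : ℝ) * (x + c4) - lam * (4 * (x ^ 2 + x * c4 + c4 ^ 2) - 3) ≤ 0 := by
    linarith [hb.1, hb.2, mul_nonneg p p, mul_nonneg p q, mul_nonneg q q, c4l, c4h]
  have e : Ft x + (g4 + (27031 / 2000 : ℝ) * (x - c4)) - (g0 + (-(12681 / 5000) : ℝ) * ((2 * x ^ 2 - 1) - c0)) =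
      (x - c4) * (1 + (27031 / 2000 : ℝ) - 2 * (-(12681 / 5000) : ℝ) * (x + c4) - lam * (4 * (x ^ 2 + x * c4 + c4 ^ 2) - 3)) := by
    rw [closing, e0]
    unfold Ft T3
    ring
  rw [e]
  exact mul_nonpos_of_nonneg_of_nonpos (sub_nonneg.2 h1) hR

lemma n4_11 (x : ℝ) (h1 : (-(99197 / 100000) : ℝ) ≤ x) (h2 : x ≤ (-(1983 / 2000) : ℝ)) :
    Ft x + (g4 + (27031 / 2000 : ℝ) * (x - c4)) - (g1 + (-(10661 / 10000) : ℝ) * ((2 * x ^ 2 - 1) - c1)) ≤ 0 := by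
  have p := sub_nonneg.2 h1
  have q := sub_nonneg.2 h2
  linarith [lamT x (by linarith), mul_nonneg (mul_nonneg p p) p, mul_nonneg (mul_nonneg p p) q,
    mul_nonneg (mul_nonneg p q) q, mul_nonneg (mul_nonneg q q) q, c1l, c1h, g1l, g1h, c4l, c4h, g4l, g4h]

lemma n4_12 (x : ℝ) (h1 : (-(99197 / 100000) : ℝ) ≤ x) (h2 : x ≤ (-(1983 / 2000) : ℝ)) :
    Ft x + (g4 + (27031 / 2000 : ℝ) * (x - c4)) - (g0 + (-(12681 / 5000) : ℝ) * ((2 * x ^ 2 - 1) - c0)) ≤ 0 := by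
  have p := sub_nonneg.2 h1
  have q := sub_nonneg.2 h2
  linarith [lamT x (by linarith), mul_nonneg (mul_nonneg p p) p, mul_nonneg (mul_nonneg p p) q,
    mul_nonneg (mul_nonneg p q) q, mul_nonneg (mul_nonneg q q) q, c0l, c0h, g0l, g0h, c4l, c4h, g4l, g4h]

lemma n5_11 (x : ℝ) (h1 : (-(1983 / 2000) : ℝ) ≤ x) (h2 : x ≤ (-(197 / 200) : ℝ)) :
    Ft x + ((162867 / 20000 : ℝ) + (18343 / 2500 : ℝ) * x) - (g1 + (-(10661 / 10000) : ℝ) * ((2 * x ^ 2 - 1) - c1)) ≤ 0 := by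
  have p := sub_nonneg.2 h1
  have q := sub_nonneg.2 h2
  linarith [lamT x (by linarith), mul_nonneg (mul_nonneg p p) p, mul_nonneg (mul_nonneg p p) q,
    mul_nonneg (mul_nonneg p q) q, mul_nonneg (mul_nonneg q q) q, c1l, c1h, g1l, g1h]

lemma n6_11 (x : ℝ) (h1 : (-(197 / 200) : ℝ) ≤ x) (h2 : x ≤ (-(9833 / 10000) : ℝ)) :
    Ft x + ((577847 / 100000 : ℝ) + (49363 / 10000 : ℝ) * x) - (g1 + (-(10661 / 10000) : ℝ) * ((2 * x ^ 2 - 1) - c1)) ≤ 0 := by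
  have p := sub_nonneg.2 h1
  have q := sub_nonneg.2 h2
  linarith [lamT x (by linarith), mul_nonneg (mul_nonneg p p) p, mul_nonneg (mul_nonneg p p) q,
    mul_nonneg (mul_nonneg p q) q, mul_nonneg (mul_nonneg q q) q, c1l, c1h, g1l, g1h]

lemma n7_10 (x : ℝ) (h1 : (-(9833 / 10000) : ℝ) ≤ x) (h2 : x ≤ (-(4903 / 5000) : ℝ)) :
    Ft x + ((577847 / 100000 : ℝ) + (49363 / 10000 : ℝ) * x) - (g1 + (-(18239 / 10000) : ℝ) * ((2 * x ^ 2 - 1) - c1)) ≤ 0 := by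
  have p := sub_nonneg.2 h1
  have q := sub_nonneg.2 h2
  linarith [lamT x (by linarith), mul_nonneg (mul_nonneg p p) p, mul_nonneg (mul_nonneg p p) q,
    mul_nonneg (mul_nonneg p q) q, mul_nonneg (mul_nonneg q q) q, c1l, c1h, g1l, g1h]

lemma n7_11 (x : ℝ) (h1 : (-(9833 / 10000) : ℝ) ≤ x) (h2 : x ≤ (-(4903 / 5000) : ℝ)) :
    Ft x + ((577847 / 100000 : ℝ) + (49363 / 10000 : ℝ) * x) - (g1 + (-(10661 / 10000) : ℝ) * ((2 * x ^ 2 - 1) - c1)) ≤ 0 := by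
  have p := sub_nonneg.2 h1
  have q := sub_nonneg.2 h2
  linarith [lamT x (by linarith), mul_nonneg (mul_nonneg p p) p, mul_nonneg (mul_nonneg p p) q,
    mul_nonneg (mul_nonneg p q) q, mul_nonneg (mul_nonneg q q) q, c1l, c1h, g1l, g1h]

lemma n8_10 (x : ℝ) (h1 : (-(4903 / 5000) : ℝ) ≤ x) (h2 : x ≤ (-(487 / 500) : ℝ)) :
    Ft x + ((577847 / 100000 : ℝ) + (49363 / 10000 : ℝ) * x) - (g1 + (-(18239 / 10000) : ℝ) * ((2 * x ^ 2 - 1) - c1)) ≤ 0 := by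
  have p := sub_nonneg.2 h1
  have q := sub_nonneg.2 h2
  linarith [lamT x (by linarith), mul_nonneg (mul_nonneg p p) p, mul_nonneg (mul_nonneg p p) q,
    mul_nonneg (mul_nonneg p q) q, mul_nonneg (mul_nonneg q q) q, c1l, c1h, g1l, g1h]

lemma n9_9 (x : ℝ) (h1 : (-(487 / 500) : ℝ) ≤ x) (h2 : x ≤ (-(4779 / 5000) : ℝ)) :
    Ft x + ((577847 / 100000 : ℝ) + (49363 / 10000 : ℝ) * x) - (g2 + (-(11539 / 10000) : ℝ) * ((2 * x ^ 2 - 1) - c2)) ≤ 0 := by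
  have p := sub_nonneg.2 h1
  have q := sub_nonneg.2 h2
  linarith [lamT x (by linarith), mul_nonneg (mul_nonneg p p) p, mul_nonneg (mul_nonneg p p) q,
    mul_nonneg (mul_nonneg p q) q, mul_nonneg (mul_nonneg q q) q, c2l, c2h, g2l, g2h]

lemma n9_10 (x : ℝ) (h1 : (-(487 / 500) : ℝ) ≤ x) (h2 : x ≤ (-(4779 / 5000) : ℝ)) :
    Ft x + ((577847 / 100000 : ℝ) + (49363 / 10000 : ℝ) * x) - (g1 + (-(18239 / 10000) : ℝ) * ((2 * x ^ 2 - 1) - c1)) ≤ 0 := by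
  have p := sub_nonneg.2 h1
  have q := sub_nonneg.2 h2
  linarith [lamT x (by linarith), mul_nonneg (mul_nonneg p p) p, mul_nonneg (mul_nonneg p p) q,
    mul_nonneg (mul_nonneg p q) q, mul_nonneg (mul_nonneg q q) q, c1l, c1h, g1l, g1h]

lemma n10_8 (x : ℝ) (h1 : (-(4779 / 5000) : ℝ) ≤ x) (h2 : x ≤ (-(114 / 125) : ℝ)) :
    Ft x + ((577847 / 100000 : ℝ) + (49363 / 10000 : ℝ) * x) - (g2 + (-(3671 / 2500) : ℝ) * ((2 * x ^ 2 - 1) - c2)) ≤ 0 := by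
  have p := sub_nonneg.2 h1
  have q := sub_nonneg.2 h2
  linarith [lamT x (by linarith), mul_nonneg (mul_nonneg p p) p, mul_nonneg (mul_nonneg p p) q,
    mul_nonneg (mul_nonneg p q) q, mul_nonneg (mul_nonneg q q) q, c2l, c2h, g2l, g2h]

lemma n10_9 (x : ℝ) (h1 : (-(4779 / 5000) : ℝ) ≤ x) (h2 : x ≤ (-(114 / 125) : ℝ)) :
    Ft x + ((577847 / 100000 : ℝ) + (49363 / 10000 : ℝ) * x) - (g2 + (-(11539 / 10000) : ℝ) * ((2 * x ^ 2 - 1) - c2)) ≤ 0 := by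
  have p := sub_nonneg.2 h1
  have q := sub_nonneg.2 h2
  linarith [lamT x (by linarith), mul_nonneg (mul_nonneg p p) p, mul_nonneg (mul_nonneg p p) q,
    mul_nonneg (mul_nonneg p q) q, mul_nonneg (mul_nonneg q q) q, c2l, c2h, g2l, g2h]

lemma n11_7 (x : ℝ) (h1 : (-(114 / 125) : ℝ) ≤ x) (h2 : x ≤ (-(773 / 1000) : ℝ)) :
    Ft x + ((202713 / 100000 : ℝ) + (823 / 1000 : ℝ) * x) - (g3 + (-(1037 / 2000) : ℝ) * ((2 * x ^ 2 - 1) - c3)) ≤ 0 := by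
  have p := sub_nonneg.2 h1
  have q := sub_nonneg.2 h2
  linarith [lamT x (by linarith), mul_nonneg (mul_nonneg p p) p, mul_nonneg (mul_nonneg p p) q,
    mul_nonneg (mul_nonneg p q) q, mul_nonneg (mul_nonneg q q) q, c3l, c3h, g3l, g3h]

lemma n11_8 (x : ℝ) (h1 : (-(114 / 125) : ℝ) ≤ x) (h2 : x ≤ (-(773 / 1000) : ℝ)) :
    Ft x + ((202713 / 100000 : ℝ) + (823 / 1000 : ℝ) * x) - (g2 + (-(3671 / 2500) : ℝ) * ((2 * x ^ 2 - 1) - c2)) ≤ 0 := by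
  have p := sub_nonneg.2 h1
  have q := sub_nonneg.2 h2
  linarith [lamT x (by linarith), mul_nonneg (mul_nonneg p p) p, mul_nonneg (mul_nonneg p p) q,
    mul_nonneg (mul_nonneg p q) q, mul_nonneg (mul_nonneg q q) q, c2l, c2h, g2l, g2h]

lemma n12_6 (x : ℝ) (h1 : (-(773 / 1000) : ℝ) ≤ x) (h2 : x ≤ (-(27 / 40) : ℝ)) :
    Ft x + ((202713 / 100000 : ℝ) + (823 / 1000 : ℝ) * x) - (g3 + (-(1833 / 2000) : ℝ) * ((2 * x ^ 2 - 1) - c3)) ≤ 0 := by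
  have p := sub_nonneg.2 h1
  have q := sub_nonneg.2 h2
  linarith [lamT x (by linarith), mul_nonneg (mul_nonneg p p) p, mul_nonneg (mul_nonneg p p) q,
    mul_nonneg (mul_nonneg p q) q, mul_nonneg (mul_nonneg q q) q, c3l, c3h, g3l, g3h]

lemma n12_7 (x : ℝ) (h1 : (-(773 / 1000) : ℝ) ≤ x) (h2 : x ≤ (-(27 / 40) : ℝ)) :
    Ft x + ((202713 / 100000 : ℝ) + (823 / 1000 : ℝ) * x) - (g3 + (-(1037 / 2000) : ℝ) * ((2 * x ^ 2 - 1) - c3)) ≤ 0 := by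
  have p := sub_nonneg.2 h1
  have q := sub_nonneg.2 h2
  linarith [lamT x (by linarith), mul_nonneg (mul_nonneg p p) p, mul_nonneg (mul_nonneg p p) q,
    mul_nonneg (mul_nonneg p q) q, mul_nonneg (mul_nonneg q q) q, c3l, c3h, g3l, g3h]

lemma n13_6 (x : ℝ) (h1 : (-(27 / 40) : ℝ) ≤ x) (h2 : x ≤ (-(13 / 25) : ℝ)) :
    Ft x + ((202713 / 100000 : ℝ) + (823 / 1000 : ℝ) * x) - (g3 + (-(1833 / 2000) : ℝ) * ((2 * x ^ 2 - 1) - c3)) ≤ 0 := by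
  have p := sub_nonneg.2 h1
  have q := sub_nonneg.2 h2
  linarith [lamT x (by linarith), mul_nonneg (mul_nonneg p p) p, mul_nonneg (mul_nonneg p p) q,
    mul_nonneg (mul_nonneg p q) q, mul_nonneg (mul_nonneg q q) q, c3l, c3h, g3l, g3h]

lemma n14_5 (x : ℝ) (h1 : (-(13 / 25) : ℝ) ≤ x) (h2 : x ≤ (-(259 / 1000) : ℝ)) :
    Ft x + (g3 + (-(1833 / 2000) : ℝ) * (x - c3)) - ((202713 / 100000 : ℝ) + (823 / 1000 : ℝ) * (2 * x ^ 2 - 1)) ≤ 0 := by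
  have p := sub_nonneg.2 h1
  have q := sub_nonneg.2 h2
  linarith [lamT x (by linarith), mul_nonneg (mul_nonneg p p) p, mul_nonneg (mul_nonneg p p) q,
    mul_nonneg (mul_nonneg p q) q, mul_nonneg (mul_nonneg q q) q, c3l, c3h, g3l, g3h]

lemma n14_6 (x : ℝ) (h1 : (-(13 / 25) : ℝ) ≤ x) (h2 : x ≤ (-(259 / 1000) : ℝ)) :
    Ft x + (g3 + (-(1833 / 2000) : ℝ) * (x - c3)) - (g3 + (-(1833 / 2000) : ℝ) * ((2 * x ^ 2 - 1) - c3)) ≤ 0 := by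
  have p := sub_nonneg.2 h1
  have q := sub_nonneg.2 h2
  linarith [lamT x (by linarith), mul_nonneg (mul_nonneg p p) p, mul_nonneg (mul_nonneg p p) q,
    mul_nonneg (mul_nonneg p q) q, mul_nonneg (mul_nonneg q q) q, c3l, c3h, g3l, g3h]

lemma n15_4 (x : ℝ) (h1 : (-(259 / 1000) : ℝ) ≤ x) (h2 : x ≤ (-(161 / 1000) : ℝ)) :
    Ft x + (g3 + (-(1833 / 2000) : ℝ) * (x - c3)) - ((577847 / 100000 : ℝ) + (49363 / 10000 : ℝ) * (2 * x ^ 2 - 1)) ≤ 0 := by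
  have p := sub_nonneg.2 h1
  have q := sub_nonneg.2 h2
  linarith [lamT x (by linarith), mul_nonneg (mul_nonneg p p) p, mul_nonneg (mul_nonneg p p) q,
    mul_nonneg (mul_nonneg p q) q, mul_nonneg (mul_nonneg q q) q, c3l, c3h, g3l, g3h]

lemma n15_5 (x : ℝ) (h1 : (-(259 / 1000) : ℝ) ≤ x) (h2 : x ≤ (-(161 / 1000) : ℝ)) :
    Ft x + (g3 + (-(1833 / 2000) : ℝ) * (x - c3)) - ((202713 / 100000 : ℝ) + (823 / 1000 : ℝ) * (2 * x ^ 2 - 1)) ≤ 0 := by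
  have p := sub_nonneg.2 h1
  have q := sub_nonneg.2 h2
  linarith [lamT x (by linarith), mul_nonneg (mul_nonneg p p) p, mul_nonneg (mul_nonneg p p) q,
    mul_nonneg (mul_nonneg p q) q, mul_nonneg (mul_nonneg q q) q, c3l, c3h, g3l, g3h]

lemma n16_4 (x : ℝ) (h1 : (-(161 / 1000) : ℝ) ≤ x) (h2 : x ≤ (-(13 / 100) : ℝ)) :
    Ft x + (g3 + (-(1833 / 2000) : ℝ) * (x - c3)) - ((577847 / 100000 : ℝ) + (49363 / 10000 : ℝ) * (2 * x ^ 2 - 1)) ≤ 0 := by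
  have p := sub_nonneg.2 h1
  have q := sub_nonneg.2 h2
  linarith [lamT x (by linarith), mul_nonneg (mul_nonneg p p) p, mul_nonneg (mul_nonneg p p) q,
    mul_nonneg (mul_nonneg p q) q, mul_nonneg (mul_nonneg q q) q, c3l, c3h, g3l, g3h]

lemma n17_3 (x : ℝ) (h1 : (-(13 / 100) : ℝ) ≤ x) (h2 : x ≤ (-(367 / 5000) : ℝ)) :
    Ft x + (g3 + (-(1833 / 2000) : ℝ) * (x - c3)) - ((162867 / 20000 : ℝ) + (18343 / 2500 : ℝ) * (2 * x ^ 2 - 1)) ≤ 0 := by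
  have p := sub_nonneg.2 h1
  have q := sub_nonneg.2 h2
  linarith [lamT x (by linarith), mul_nonneg (mul_nonneg p p) p, mul_nonneg (mul_nonneg p p) q,
    mul_nonneg (mul_nonneg p q) q, mul_nonneg (mul_nonneg q q) q, c3l, c3h, g3l, g3h]

lemma n17_4 (x : ℝ) (h1 : (-(13 / 100) : ℝ) ≤ x) (h2 : x ≤ (-(367 / 5000) : ℝ)) :
    Ft x + (g3 + (-(1833 / 2000) : ℝ) * (x - c3)) - ((577847 / 100000 : ℝ) + (49363 / 10000 : ℝ) * (2 * x ^ 2 - 1)) ≤ 0 := by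
  have p := sub_nonneg.2 h1
  have q := sub_nonneg.2 h2
  linarith [lamT x (by linarith), mul_nonneg (mul_nonneg p p) p, mul_nonneg (mul_nonneg p p) q,
    mul_nonneg (mul_nonneg p q) q, mul_nonneg (mul_nonneg q q) q, c3l, c3h, g3l, g3h]

lemma n18_2 (x : ℝ) (h1 : (-(367 / 5000) : ℝ) ≤ x) (h2 : x ≤ (-(8 / 125) : ℝ)) :
    Ft x + (g3 + (-(1833 / 2000) : ℝ) * (x - c3)) - (g4 + (27031 / 2000 : ℝ) * ((2 * x ^ 2 - 1) - c4)) ≤ 0 := by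
  have p := sub_nonneg.2 h1
  have q := sub_nonneg.2 h2
  linarith [lamT x (by linarith), mul_nonneg (mul_nonneg p p) p, mul_nonneg (mul_nonneg p p) q,
    mul_nonneg (mul_nonneg p q) q, mul_nonneg (mul_nonneg q q) q, c3l, c3h, g3l, g3h, c4l, c4h, g4l, g4h]

lemma n18_3 (x : ℝ) (h1 : (-(367 / 5000) : ℝ) ≤ x) (h2 : x ≤ (-(8 / 125) : ℝ)) :
    Ft x + (g3 + (-(1833 / 2000) : ℝ) * (x - c3)) - ((162867 / 20000 : ℝ) + (18343 / 2500 : ℝ) * (2 * x ^ 2 - 1)) ≤ 0 := by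
  have p := sub_nonneg.2 h1
  have q := sub_nonneg.2 h2
  linarith [lamT x (by linarith), mul_nonneg (mul_nonneg p p) p, mul_nonneg (mul_nonneg p p) q,
    mul_nonneg (mul_nonneg p q) q, mul_nonneg (mul_nonneg q q) q, c3l, c3h, g3l, g3h]

lemma n19_1 (x : ℝ) (h1 : (-(8 / 125) : ℝ) ≤ x) (h2 : x ≤ (-(31 / 1000) : ℝ)) :
    Ft x + (g3 + (-(1833 / 2000) : ℝ) * (x - c3)) - (g4 + (5483 / 625 : ℝ) * ((2 * x ^ 2 - 1) - c4)) ≤ 0 := by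
  have p := sub_nonneg.2 h1
  have q := sub_nonneg.2 h2
  linarith [lamT x (by linarith), mul_nonneg (mul_nonneg p p) p, mul_nonneg (mul_nonneg p p) q,
    mul_nonneg (mul_nonneg p q) q, mul_nonneg (mul_nonneg q q) q, c3l, c3h, g3l, g3h, c4l, c4h, g4l, g4h]

lemma n19_2 (x : ℝ) (h1 : (-(8 / 125) : ℝ) ≤ x) (h2 : x ≤ (-(31 / 1000) : ℝ)) :
    Ft x + (g3 + (-(1833 / 2000) : ℝ) * (x - c3)) - (g4 + (27031 / 2000 : ℝ) * ((2 * x ^ 2 - 1) - c4)) ≤ 0 := by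
  have p := sub_nonneg.2 h1
  have q := sub_nonneg.2 h2
  linarith [lamT x (by linarith), mul_nonneg (mul_nonneg p p) p, mul_nonneg (mul_nonneg p p) q,
    mul_nonneg (mul_nonneg p q) q, mul_nonneg (mul_nonneg q q) q, c3l, c3h, g3l, g3h, c4l, c4h, g4l, g4h]

lemma n20_0 (x : ℝ) (h1 : (-(31 / 1000) : ℝ) ≤ x) (h2 : x ≤ (0 : ℝ)) :
    Ft x + (g3 + (-(1833 / 2000) : ℝ) * (x - c3)) - ((549897 / 20000 : ℝ) + (267467 / 10000 : ℝ) * (2 * x ^ 2 - 1)) ≤ 0 := by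
  have p := sub_nonneg.2 h1
  have q := sub_nonneg.2 h2
  linarith [lamT x (by linarith), mul_nonneg (mul_nonneg p p) p, mul_nonneg (mul_nonneg p p) q,
    mul_nonneg (mul_nonneg p q) q, mul_nonneg (mul_nonneg q q) q, c3l, c3h, g3l, g3h]

lemma n20_1 (x : ℝ) (h1 : (-(31 / 1000) : ℝ) ≤ x) (h2 : x ≤ (0 : ℝ)) :
    Ft x + (g3 + (-(1833 / 2000) : ℝ) * (x - c3)) - (g4 + (5483 / 625 : ℝ) * ((2 * x ^ 2 - 1) - c4)) ≤ 0 := by
  have p := sub_nonneg.2 h1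
  have q := sub_nonneg.2 h2
  linarith [lamT x (by linarith), mul_nonneg (mul_nonneg p p) p, mul_nonneg (mul_nonneg p p) q,
    mul_nonneg (mul_nonneg p q) q, mul_nonneg (mul_nonneg q q) q, c3l, c3h, g3l, g3h, c4l, c4h, g4l, g4h]

lemma n21_0 (x : ℝ) (h1 : (0 : ℝ) ≤ x) (h2 : x ≤ (693 / 25000 : ℝ)) :
    Ft x + (g3 + (-(1833 / 2000) : ℝ) * (x - c3)) - ((549897 / 20000 : ℝ) + (267467 / 10000 : ℝ) * (2 * x ^ 2 - 1)) ≤ 0 := by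
  have p := sub_nonneg.2 h1
  have q := sub_nonneg.2 h2
  linarith [lamT x (by linarith), mul_nonneg (mul_nonneg p p) p, mul_nonneg (mul_nonneg p p) q,
    mul_nonneg (mul_nonneg p q) q, mul_nonneg (mul_nonneg q q) q, c3l, c3h, g3l, g3h]

lemma n21_1 (x : ℝ) (h1 : (0 : ℝ) ≤ x) (h2 : x ≤ (693 / 25000 : ℝ)) :
    Ft x + (g3 + (-(1833 / 2000) : ℝ) * (x - c3)) - (g4 + (5483 / 625 : ℝ) * ((2 * x ^ 2 - 1) - c4)) ≤ 0 := by
  have p := sub_nonneg.2 h1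
  have q := sub_nonneg.2 h2
  linarith [lamT x (by linarith), mul_nonneg (mul_nonneg p p) p, mul_nonneg (mul_nonneg p p) q,
    mul_nonneg (mul_nonneg p q) q, mul_nonneg (mul_nonneg q q) q, c3l, c3h, g3l, g3h, c4l, c4h, g4l, g4h]

lemma n22_1 (x : ℝ) (h1 : (693 / 25000 : ℝ) ≤ x) (h2 : x ≤ c3) :
    Ft x + (g3 + (-(1833 / 2000) : ℝ) * (x - c3)) - (g4 + (5483 / 625 : ℝ) * ((2 * x ^ 2 - 1) - c4)) ≤ 0 := by
  have p := sub_nonneg.2 h1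
  have q := sub_nonneg.2 (h2.trans c3h)
  have hb := abs_le.1 (Rbd (x := x) (z := c3) (lo := (47581903 / 1000000000 : ℝ))
    (abs_le.2 ⟨by linarith, by linarith⟩) (abs_le.2 ⟨by linarith [c3l], by linarith [c3h]⟩)
    (abs_le.2 ⟨by norm_num, by norm_num⟩) c3l (by linarith [c3h]))
  have hR : 0 ≤ 1 + (-(1833 / 2000) : ℝ) - 2 * (5483 / 625 : ℝ) * (x + c3) - lam * (4 * (x ^ 2 + x * c3 + c3 ^ 2) - 3) := by
    linarith [hb.1, hb.2, mul_nonneg p p, mul_nonneg p q, mul_nonneg q q, c3l, c3h]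
  have e : Ft x + (g3 + (-(1833 / 2000) : ℝ) * (x - c3)) - (g4 + (5483 / 625 : ℝ) * ((2 * x ^ 2 - 1) - c4)) =
      (x - c3) * (1 + (-(1833 / 2000) : ℝ) - 2 * (5483 / 625 : ℝ) * (x + c3) - lam * (4 * (x ^ 2 + x * c3 + c3 ^ 2) - 3)) := by
    rw [gd4, e4]
    unfold Ft T3
    ring
  rw [e]
  exact mul_nonpos_of_nonpos_of_nonneg (sub_nonpos.2 h2) hR

lemma n23_2 (x : ℝ) (h1 : c3 ≤ x) (h2 : x ≤ (1619 / 25000 : ℝ)) :
    Ft x + (g3 + (-(1037 / 2000) : ℝ) * (x - c3)) - (g4 + (27031 / 2000 : ℝ) * ((2 * x ^ 2 - 1) - c4)) ≤ 0 := by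
  have p := sub_nonneg.2 (c3l.trans h1)
  have q := sub_nonneg.2 h2
  have hb := abs_le.1 (Rbd (x := x) (z := c3) (lo := (47581903 / 1000000000 : ℝ))
    (abs_le.2 ⟨by linarith, by linarith⟩) (abs_le.2 ⟨by linarith [c3l], by linarith [c3h]⟩)
    (abs_le.2 ⟨by norm_num, by norm_num⟩) c3l (by linarith [c3h]))
  have hR : 1 + (-(1037 / 2000) : ℝ) - 2 * (27031 / 2000 : ℝ) * (x + c3) - lam * (4 * (x ^ 2 + x * c3 + c3 ^ 2) - 3) ≤ 0 := by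
    linarith [hb.1, hb.2, mul_nonneg p p, mul_nonneg p q, mul_nonneg q q, c3l, c3h]
  have e : Ft x + (g3 + (-(1037 / 2000) : ℝ) * (x - c3)) - (g4 + (27031 / 2000 : ℝ) * ((2 * x ^ 2 - 1) - c4)) =
      (x - c3) * (1 + (-(1037 / 2000) : ℝ) - 2 * (27031 / 2000 : ℝ) * (x + c3) - lam * (4 * (x ^ 2 + x * c3 + c3 ^ 2) - 3)) := by
    rw [gd4, e4]
    unfold Ft T3
    ring
  rw [e]
  exact mul_nonpos_of_nonneg_of_nonpos (sub_nonneg.2 h1) hR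

lemma n24_2 (x : ℝ) (h1 : (1619 / 25000 : ℝ) ≤ x) (h2 : x ≤ (721 / 10000 : ℝ)) :
    Ft x + (g3 + (-(1037 / 2000) : ℝ) * (x - c3)) - (g4 + (27031 / 2000 : ℝ) * ((2 * x ^ 2 - 1) - c4)) ≤ 0 := by
  have p := sub_nonneg.2 h1
  have q := sub_nonneg.2 h2
  linarith [lamT x (by linarith), mul_nonneg (mul_nonneg p p) p, mul_nonneg (mul_nonneg p p) q,
    mul_nonneg (mul_nonneg p q) q, mul_nonneg (mul_nonneg q q) q, c3l, c3h, g3l, g3h, c4l, c4h, g4l, g4h]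

lemma n24_3 (x : ℝ) (h1 : (1619 / 25000 : ℝ) ≤ x) (h2 : x ≤ (721 / 10000 : ℝ)) :
    Ft x + (g3 + (-(1037 / 2000) : ℝ) * (x - c3)) - ((162867 / 20000 : ℝ) + (18343 / 2500 : ℝ) * (2 * x ^ 2 - 1)) ≤ 0 := by
  have p := sub_nonneg.2 h1
  have q := sub_nonneg.2 h2
  linarith [lamT x (by linarith), mul_nonneg (mul_nonneg p p) p, mul_nonneg (mul_nonneg p p) q,
    mul_nonneg (mul_nonneg p q) q, mul_nonneg (mul_nonneg q q) q, c3l, c3h, g3l, g3h]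

lemma n25_3 (x : ℝ) (h1 : (721 / 10000 : ℝ) ≤ x) (h2 : x ≤ (3 / 25 : ℝ)) :
    Ft x + (g3 + (-(1037 / 2000) : ℝ) * (x - c3)) - ((162867 / 20000 : ℝ) + (18343 / 2500 : ℝ) * (2 * x ^ 2 - 1)) ≤ 0 := by
  have p := sub_nonneg.2 h1
  have q := sub_nonneg.2 h2
  linarith [lamT x (by linarith), mul_nonneg (mul_nonneg p p) p, mul_nonneg (mul_nonneg p p) q,
    mul_nonneg (mul_nonneg p q) q, mul_nonneg (mul_nonneg q q) q, c3l, c3h, g3l, g3h]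

lemma n25_4 (x : ℝ) (h1 : (721 / 10000 : ℝ) ≤ x) (h2 : x ≤ (3 / 25 : ℝ)) :
    Ft x + (g3 + (-(1037 / 2000) : ℝ) * (x - c3)) - ((577847 / 100000 : ℝ) + (49363 / 10000 : ℝ) * (2 * x ^ 2 - 1)) ≤ 0 := by
  have p := sub_nonneg.2 h1
  have q := sub_nonneg.2 h2
  linarith [lamT x (by linarith), mul_nonneg (mul_nonneg p p) p, mul_nonneg (mul_nonneg p p) q,
    mul_nonneg (mul_nonneg p q) q, mul_nonneg (mul_nonneg q q) q, c3l, c3h, g3l, g3h]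

lemma n26_4 (x : ℝ) (h1 : (3 / 25 : ℝ) ≤ x) (h2 : x ≤ (167 / 500 : ℝ)) :
    Ft x + (g3 + (-(1037 / 2000) : ℝ) * (x - c3)) - ((577847 / 100000 : ℝ) + (49363 / 10000 : ℝ) * (2 * x ^ 2 - 1)) ≤ 0 := by
  have p := sub_nonneg.2 h1
  have q := sub_nonneg.2 h2
  linarith [lamT x (by linarith), mul_nonneg (mul_nonneg p p) p, mul_nonneg (mul_nonneg p p) q,
    mul_nonneg (mul_nonneg p q) q, mul_nonneg (mul_nonneg q q) q, c3l, c3h, g3l, g3h]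

lemma n26_5 (x : ℝ) (h1 : (3 / 25 : ℝ) ≤ x) (h2 : x ≤ (167 / 500 : ℝ)) :
    Ft x + (g3 + (-(1037 / 2000) : ℝ) * (x - c3)) - ((202713 / 100000 : ℝ) + (823 / 1000 : ℝ) * (2 * x ^ 2 - 1)) ≤ 0 := by
  have p := sub_nonneg.2 h1
  have q := sub_nonneg.2 h2
  linarith [lamT x (by linarith), mul_nonneg (mul_nonneg p p) p, mul_nonneg (mul_nonneg p p) q,
    mul_nonneg (mul_nonneg p q) q, mul_nonneg (mul_nonneg q q) q, c3l, c3h, g3l, g3h]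

lemma n27_5 (x : ℝ) (h1 : (167 / 500 : ℝ) ≤ x) (h2 : x ≤ (4899 / 10000 : ℝ)) :
    Ft x + (g2 + (-(3671 / 2500) : ℝ) * (x - c2)) - ((202713 / 100000 : ℝ) + (823 / 1000 : ℝ) * (2 * x ^ 2 - 1)) ≤ 0 := by
  have p := sub_nonneg.2 h1
  have q := sub_nonneg.2 h2
  linarith [lamT x (by linarith), mul_nonneg (mul_nonneg p p) p, mul_nonneg (mul_nonneg p p) q,
    mul_nonneg (mul_nonneg p q) q, mul_nonneg (mul_nonneg q q) q, c2l, c2h, g2l, g2h]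

lemma n27_6 (x : ℝ) (h1 : (167 / 500 : ℝ) ≤ x) (h2 : x ≤ (4899 / 10000 : ℝ)) :
    Ft x + (g2 + (-(3671 / 2500) : ℝ) * (x - c2)) - (g3 + (-(1833 / 2000) : ℝ) * ((2 * x ^ 2 - 1) - c3)) ≤ 0 := by
  have p := sub_nonneg.2 h1
  have q := sub_nonneg.2 h2
  linarith [lamT x (by linarith), mul_nonneg (mul_nonneg p p) p, mul_nonneg (mul_nonneg p p) q,
    mul_nonneg (mul_nonneg p q) q, mul_nonneg (mul_nonneg q q) q, c2l, c2h, g2l, g2h, c3l, c3h, g3l, g3h]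

lemma n28_6 (x : ℝ) (h1 : (4899 / 10000 : ℝ) ≤ x) (h2 : x ≤ c2) :
    Ft x + (g2 + (-(3671 / 2500) : ℝ) * (x - c2)) - (g3 + (-(1833 / 2000) : ℝ) * ((2 * x ^ 2 - 1) - c3)) ≤ 0 := by
  have p := sub_nonneg.2 h1
  have q := sub_nonneg.2 (h2.trans c2h)
  have hb := abs_le.1 (Rbd (x := x) (z := c2) (lo := (723734033 / 1000000000 : ℝ))
    (abs_le.2 ⟨by linarith, by linarith⟩) (abs_le.2 ⟨by linarith [c2l], by linarith [c2h]⟩)
    (abs_le.2 ⟨by norm_num, by norm_num⟩) c2l (by linarith [c2h]))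
  have hR : 0 ≤ 1 + (-(3671 / 2500) : ℝ) - 2 * (-(1833 / 2000) : ℝ) * (x + c2) - lam * (4 * (x ^ 2 + x * c2 + c2 ^ 2) - 3) := by
    linarith [hb.1, hb.2, mul_nonneg p p, mul_nonneg p q, mul_nonneg q q, c2l, c2h]
  have e : Ft x + (g2 + (-(3671 / 2500) : ℝ) * (x - c2)) - (g3 + (-(1833 / 2000) : ℝ) * ((2 * x ^ 2 - 1) - c3)) =
      (x - c2) * (1 + (-(3671 / 2500) : ℝ) - 2 * (-(1833 / 2000) : ℝ) * (x + c2) - lam * (4 * (x ^ 2 + x * c2 + c2 ^ 2) - 3)) := by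
    rw [gd3, e3]
    unfold Ft T3
    ring
  rw [e]
  exact mul_nonpos_of_nonpos_of_nonneg (sub_nonpos.2 h2) hR

lemma n29_7 (x : ℝ) (h1 : c2 ≤ x) (h2 : x ≤ (81637 / 100000 : ℝ)) :
    Ft x + (g2 + (-(11539 / 10000) : ℝ) * (x - c2)) - (g3 + (-(1037 / 2000) : ℝ) * ((2 * x ^ 2 - 1) - c3)) ≤ 0 := by
  have p := sub_nonneg.2 (c2l.trans h1)
  have q := sub_nonneg.2 h2
  have hb := abs_le.1 (Rbd (x := x) (z := c2) (lo := (723734033 / 1000000000 : ℝ))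
    (abs_le.2 ⟨by linarith, by linarith⟩) (abs_le.2 ⟨by linarith [c2l], by linarith [c2h]⟩)
    (abs_le.2 ⟨by norm_num, by norm_num⟩) c2l (by linarith [c2h]))
  have hR : 1 + (-(11539 / 10000) : ℝ) - 2 * (-(1037 / 2000) : ℝ) * (x + c2) - lam * (4 * (x ^ 2 + x * c2 + c2 ^ 2) - 3) ≤ 0 := by
    linarith [hb.1, hb.2, mul_nonneg p p, mul_nonneg p q, mul_nonneg q q, c2l, c2h]
  have e : Ft x + (g2 + (-(11539 / 10000) : ℝ) * (x - c2)) - (g3 + (-(1037 / 2000) : ℝ) * ((2 * x ^ 2 - 1) - c3)) =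
      (x - c2) * (1 + (-(11539 / 10000) : ℝ) - 2 * (-(1037 / 2000) : ℝ) * (x + c2) - lam * (4 * (x ^ 2 + x * c2 + c2 ^ 2) - 3)) := by
    rw [gd3, e3]
    unfold Ft T3
    ring
  rw [e]
  exact mul_nonpos_of_nonneg_of_nonpos (sub_nonneg.2 h1) hR

lemma n30_7 (x : ℝ) (h1 : (81637 / 100000 : ℝ) ≤ x) (h2 : x ≤ (431 / 500 : ℝ)) :
    Ft x + (g2 + (-(11539 / 10000) : ℝ) * (x - c2)) - (g3 + (-(1037 / 2000) : ℝ) * ((2 * x ^ 2 - 1) - c3)) ≤ 0 := by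
  have p := sub_nonneg.2 h1
  have q := sub_nonneg.2 h2
  linarith [lamT x (by linarith), mul_nonneg (mul_nonneg p p) p, mul_nonneg (mul_nonneg p p) q,
    mul_nonneg (mul_nonneg p q) q, mul_nonneg (mul_nonneg q q) q, c2l, c2h, g2l, g2h, c3l, c3h, g3l, g3h]

lemma n30_8 (x : ℝ) (h1 : (81637 / 100000 : ℝ) ≤ x) (h2 : x ≤ (431 / 500 : ℝ)) :
    Ft x + (g2 + (-(11539 / 10000) : ℝ) * (x - c2)) - (g2 + (-(3671 / 2500) : ℝ) * ((2 * x ^ 2 - 1) - c2)) ≤ 0 := by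
  have p := sub_nonneg.2 h1
  have q := sub_nonneg.2 h2
  linarith [lamT x (by linarith), mul_nonneg (mul_nonneg p p) p, mul_nonneg (mul_nonneg p p) q,
    mul_nonneg (mul_nonneg p q) q, mul_nonneg (mul_nonneg q q) q, c2l, c2h, g2l, g2h]

lemma n31_8 (x : ℝ) (h1 : (431 / 500 : ℝ) ≤ x) (h2 : x ≤ c1) :
    Ft x + (g1 + (-(18239 / 10000) : ℝ) * (x - c1)) - (g2 + (-(3671 / 2500) : ℝ) * ((2 * x ^ 2 - 1) - c2)) ≤ 0 := by
  have p := sub_nonneg.2 h1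
  have q := sub_nonneg.2 (h2.trans c1h)
  have hb := abs_le.1 (Rbd (x := x) (z := c1) (lo := (928367931 / 1000000000 : ℝ))
    (abs_le.2 ⟨by linarith, by linarith⟩) (abs_le.2 ⟨by linarith [c1l], by linarith [c1h]⟩)
    (abs_le.2 ⟨by norm_num, by norm_num⟩) c1l (by linarith [c1h]))
  have hR : 0 ≤ 1 + (-(18239 / 10000) : ℝ) - 2 * (-(3671 / 2500) : ℝ) * (x + c1) - lam * (4 * (x ^ 2 + x * c1 + c1 ^ 2) - 3) := by
    linarith [hb.1, hb.2, mul_nonneg p p, mul_nonneg p q, mul_nonneg q q, c1l, c1h]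
  have e : Ft x + (g1 + (-(18239 / 10000) : ℝ) * (x - c1)) - (g2 + (-(3671 / 2500) : ℝ) * ((2 * x ^ 2 - 1) - c2)) =
      (x - c1) * (1 + (-(18239 / 10000) : ℝ) - 2 * (-(3671 / 2500) : ℝ) * (x + c1) - lam * (4 * (x ^ 2 + x * c1 + c1 ^ 2) - 3)) := by
    rw [gd2, e2]
    unfold Ft T3
    ring
  rw [e]
  exact mul_nonpos_of_nonpos_of_nonneg (sub_nonpos.2 h2) hR

lemma n32_9 (x : ℝ) (h1 : c1 ≤ x) (h2 : x ≤ (48241 / 50000 : ℝ)) :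
    Ft x + (g1 + (-(10661 / 10000) : ℝ) * (x - c1)) - (g2 + (-(11539 / 10000) : ℝ) * ((2 * x ^ 2 - 1) - c2)) ≤ 0 := by
  have p := sub_nonneg.2 (c1l.trans h1)
  have q := sub_nonneg.2 h2
  have hb := abs_le.1 (Rbd (x := x) (z := c1) (lo := (928367931 / 1000000000 : ℝ))
    (abs_le.2 ⟨by linarith, by linarith⟩) (abs_le.2 ⟨by linarith [c1l], by linarith [c1h]⟩)
    (abs_le.2 ⟨by norm_num, by norm_num⟩) c1l (by linarith [c1h]))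
  have hR : 1 + (-(10661 / 10000) : ℝ) - 2 * (-(11539 / 10000) : ℝ) * (x + c1) - lam * (4 * (x ^ 2 + x * c1 + c1 ^ 2) - 3) ≤ 0 := by
    linarith [hb.1, hb.2, mul_nonneg p p, mul_nonneg p q, mul_nonneg q q, c1l, c1h]
  have e : Ft x + (g1 + (-(10661 / 10000) : ℝ) * (x - c1)) - (g2 + (-(11539 / 10000) : ℝ) * ((2 * x ^ 2 - 1) - c2)) =
      (x - c1) * (1 + (-(10661 / 10000) : ℝ) - 2 * (-(11539 / 10000) : ℝ) * (x + c1) - lam * (4 * (x ^ 2 + x * c1 + c1 ^ 2) - 3)) := by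
    rw [gd2, e2]
    unfold Ft T3
    ring
  rw [e]
  exact mul_nonpos_of_nonneg_of_nonpos (sub_nonneg.2 h1) hR

lemma n33_9 (x : ℝ) (h1 : (48241 / 50000 : ℝ) ≤ x) (h2 : x ≤ (121 / 125 : ℝ)) :
    Ft x + (g1 + (-(10661 / 10000) : ℝ) * (x - c1)) - (g2 + (-(11539 / 10000) : ℝ) * ((2 * x ^ 2 - 1) - c2)) ≤ 0 := by
  have p := sub_nonneg.2 h1
  have q := sub_nonneg.2 h2
  linarith [lamT x (by linarith), mul_nonneg (mul_nonneg p p) p, mul_nonneg (mul_nonneg p p) q,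
    mul_nonneg (mul_nonneg p q) q, mul_nonneg (mul_nonneg q q) q, c1l, c1h, g1l, g1h, c2l, c2h, g2l, g2h]

lemma n33_10 (x : ℝ) (h1 : (48241 / 50000 : ℝ) ≤ x) (h2 : x ≤ (121 / 125 : ℝ)) :
    Ft x + (g1 + (-(10661 / 10000) : ℝ) * (x - c1)) - (g1 + (-(18239 / 10000) : ℝ) * ((2 * x ^ 2 - 1) - c1)) ≤ 0 := by
  have p := sub_nonneg.2 h1
  have q := sub_nonneg.2 h2
  linarith [lamT x (by linarith), mul_nonneg (mul_nonneg p p) p, mul_nonneg (mul_nonneg p p) q,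
    mul_nonneg (mul_nonneg p q) q, mul_nonneg (mul_nonneg q q) q, c1l, c1h, g1l, g1h]

lemma n34_10 (x : ℝ) (h1 : (121 / 125 : ℝ) ≤ x) (h2 : x ≤ c0) :
    Ft x + (g0 + (-(12681 / 5000) : ℝ) * (x - c0)) - (g1 + (-(18239 / 10000) : ℝ) * ((2 * x ^ 2 - 1) - c1)) ≤ 0 := by
  have p := sub_nonneg.2 h1
  have q := sub_nonneg.2 (h2.trans c0h)
  have hb := abs_le.1 (Rbd (x := x) (z := c0) (lo := (122741087 / 125000000 : ℝ))
    (abs_le.2 ⟨by linarith, by linarith⟩) (abs_le.2 ⟨by linarith [c0l], by linarith [c0h]⟩)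
    (abs_le.2 ⟨by norm_num, by norm_num⟩) c0l (by linarith [c0h]))
  have hR : 0 ≤ 1 + (-(12681 / 5000) : ℝ) - 2 * (-(18239 / 10000) : ℝ) * (x + c0) - lam * (4 * (x ^ 2 + x * c0 + c0 ^ 2) - 3) := by
    linarith [hb.1, hb.2, mul_nonneg p p, mul_nonneg p q, mul_nonneg q q, c0l, c0h]
  have e : Ft x + (g0 + (-(12681 / 5000) : ℝ) * (x - c0)) - (g1 + (-(18239 / 10000) : ℝ) * ((2 * x ^ 2 - 1) - c1)) =
      (x - c0) * (1 + (-(12681 / 5000) : ℝ) - 2 * (-(18239 / 10000) : ℝ) * (x + c0) - lam * (4 * (x ^ 2 + x * c0 + c0 ^ 2) - 3)) := by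
    rw [gd1, e1]
    unfold Ft T3
    ring
  rw [e]
  exact mul_nonpos_of_nonpos_of_nonneg (sub_nonpos.2 h2) hR

lemma n35_11 (x : ℝ) (h1 : c0 ≤ x) (h2 : x ≤ (19839 / 20000 : ℝ)) :
    Ft x + (g0 + (-(907 / 2500) : ℝ) * (x - c0)) - (g1 + (-(10661 / 10000) : ℝ) * ((2 * x ^ 2 - 1) - c1)) ≤ 0 := by
  have p := sub_nonneg.2 (c0l.trans h1)
  have q := sub_nonneg.2 h2
  have hb := abs_le.1 (Rbd (x := x) (z := c0) (lo := (122741087 / 125000000 : ℝ))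
    (abs_le.2 ⟨by linarith, by linarith⟩) (abs_le.2 ⟨by linarith [c0l], by linarith [c0h]⟩)
    (abs_le.2 ⟨by norm_num, by norm_num⟩) c0l (by linarith [c0h]))
  have hR : 1 + (-(907 / 2500) : ℝ) - 2 * (-(10661 / 10000) : ℝ) * (x + c0) - lam * (4 * (x ^ 2 + x * c0 + c0 ^ 2) - 3) ≤ 0 := by
    linarith [hb.1, hb.2, mul_nonneg p p, mul_nonneg p q, mul_nonneg q q, c0l, c0h]
  have e : Ft x + (g0 + (-(907 / 2500) : ℝ) * (x - c0)) - (g1 + (-(10661 / 10000) : ℝ) * ((2 * x ^ 2 - 1) - c1)) =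
      (x - c0) * (1 + (-(907 / 2500) : ℝ) - 2 * (-(10661 / 10000) : ℝ) * (x + c0) - lam * (4 * (x ^ 2 + x * c0 + c0 ^ 2) - 3)) := by
    rw [gd1, e1]
    unfold Ft T3
    ring
  rw [e]
  exact mul_nonpos_of_nonneg_of_nonpos (sub_nonneg.2 h1) hR

lemma n36_11 (x : ℝ) (h1 : (19839 / 20000 : ℝ) ≤ x) (h2 : x ≤ (2481 / 2500 : ℝ)) :
    Ft x + (g0 + (-(907 / 2500) : ℝ) * (x - c0)) - (g1 + (-(10661 / 10000) : ℝ) * ((2 * x ^ 2 - 1) - c1)) ≤ 0 := by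
  have p := sub_nonneg.2 h1
  have q := sub_nonneg.2 h2
  linarith [lamT x (by linarith), mul_nonneg (mul_nonneg p p) p, mul_nonneg (mul_nonneg p p) q,
    mul_nonneg (mul_nonneg p q) q, mul_nonneg (mul_nonneg q q) q, c0l, c0h, g0l, g0h, c1l, c1h, g1l, g1h]

lemma n36_12 (x : ℝ) (h1 : (19839 / 20000 : ℝ) ≤ x) (h2 : x ≤ (2481 / 2500 : ℝ)) :
    Ft x + (g0 + (-(907 / 2500) : ℝ) * (x - c0)) - (g0 + (-(12681 / 5000) : ℝ) * ((2 * x ^ 2 - 1) - c0)) ≤ 0 := by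
  have p := sub_nonneg.2 h1
  have q := sub_nonneg.2 h2
  linarith [lamT x (by linarith), mul_nonneg (mul_nonneg p p) p, mul_nonneg (mul_nonneg p p) q,
    mul_nonneg (mul_nonneg p q) q, mul_nonneg (mul_nonneg q q) q, c0l, c0h, g0l, g0h]

lemma n37_12 (x : ℝ) (h1 : (2481 / 2500 : ℝ) ≤ x) (h2 : x ≤ (24863 / 25000 : ℝ)) :
    Ft x + ((34317 / 6250 : ℝ) + (-(27683 / 5000) : ℝ) * x) - (g0 + (-(12681 / 5000) : ℝ) * ((2 * x ^ 2 - 1) - c0)) ≤ 0 := by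
  have p := sub_nonneg.2 h1
  have q := sub_nonneg.2 h2
  linarith [lamT x (by linarith), mul_nonneg (mul_nonneg p p) p, mul_nonneg (mul_nonneg p p) q,
    mul_nonneg (mul_nonneg p q) q, mul_nonneg (mul_nonneg q q) q, c0l, c0h, g0l, g0h]

lemma n38_12 (x : ℝ) (h1 : (24863 / 25000 : ℝ) ≤ x) (h2 : x ≤ (99523 / 100000 : ℝ)) :
    Ft x + ((34317 / 6250 : ℝ) + (-(27683 / 5000) : ℝ) * x) - (g0 + (-(12681 / 5000) : ℝ) * ((2 * x ^ 2 - 1) - c0)) ≤ 0 := by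
  have p := sub_nonneg.2 h1
  have q := sub_nonneg.2 h2
  linarith [lamT x (by linarith), mul_nonneg (mul_nonneg p p) p, mul_nonneg (mul_nonneg p p) q,
    mul_nonneg (mul_nonneg p q) q, mul_nonneg (mul_nonneg q q) q, c0l, c0h, g0l, g0h]

lemma n39_12 (x : ℝ) (h1 : (99523 / 100000 : ℝ) ≤ x) (h2 : x ≤ (248853 / 250000 : ℝ)) :
    Ft x + ((34317 / 6250 : ℝ) + (-(27683 / 5000) : ℝ) * x) - (g0 + (-(12681 / 5000) : ℝ) * ((2 * x ^ 2 - 1) - c0)) ≤ 0 := by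
  have p := sub_nonneg.2 h1
  have q := sub_nonneg.2 h2
  linarith [lamT x (by linarith), mul_nonneg (mul_nonneg p p) p, mul_nonneg (mul_nonneg p p) q,
    mul_nonneg (mul_nonneg p q) q, mul_nonneg (mul_nonneg q q) q, c0l, c0h, g0l, g0h]

lemma n40_12 (x : ℝ) (h1 : (248853 / 250000 : ℝ) ≤ x) (h2 : x ≤ (248883 / 250000 : ℝ)) :
    Ft x + ((34317 / 6250 : ℝ) + (-(27683 / 5000) : ℝ) * x) - (g0 + (-(12681 / 5000) : ℝ) * ((2 * x ^ 2 - 1) - c0)) ≤ 0 := by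
  have p := sub_nonneg.2 h1
  have q := sub_nonneg.2 h2
  linarith [lamT x (by linarith), mul_nonneg (mul_nonneg p p) p, mul_nonneg (mul_nonneg p p) q,
    mul_nonneg (mul_nonneg p q) q, mul_nonneg (mul_nonneg q q) q, c0l, c0h, g0l, g0h]

lemma n40_13 (x : ℝ) (h1 : (248853 / 250000 : ℝ) ≤ x) (h2 : x ≤ (248883 / 250000 : ℝ)) :
    Ft x + ((34317 / 6250 : ℝ) + (-(27683 / 5000) : ℝ) * x) - (g0 + (-(907 / 2500) : ℝ) * ((2 * x ^ 2 - 1) - c0)) ≤ 0 := by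
  have p := sub_nonneg.2 h1
  have q := sub_nonneg.2 h2
  linarith [lamT x (by linarith), mul_nonneg (mul_nonneg p p) p, mul_nonneg (mul_nonneg p p) q,
    mul_nonneg (mul_nonneg p q) q, mul_nonneg (mul_nonneg q q) q, c0l, c0h, g0l, g0h]

lemma n41_13 (x : ℝ) (h1 : (248883 / 250000 : ℝ) ≤ x) (h2 : x ≤ (99571 / 100000 : ℝ)) :
    Ft x + ((34317 / 6250 : ℝ) + (-(27683 / 5000) : ℝ) * x) - (g0 + (-(907 / 2500) : ℝ) * ((2 * x ^ 2 - 1) - c0)) ≤ 0 := by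
  have p := sub_nonneg.2 h1
  have q := sub_nonneg.2 h2
  linarith [lamT x (by linarith), mul_nonneg (mul_nonneg p p) p, mul_nonneg (mul_nonneg p p) q,
    mul_nonneg (mul_nonneg p q) q, mul_nonneg (mul_nonneg q q) q, c0l, c0h, g0l, g0h]

lemma n42_13 (x : ℝ) (h1 : (99571 / 100000 : ℝ) ≤ x) (h2 : x ≤ (49821 / 50000 : ℝ)) :
    Ft x + ((34317 / 6250 : ℝ) + (-(27683 / 5000) : ℝ) * x) - (g0 + (-(907 / 2500) : ℝ) * ((2 * x ^ 2 - 1) - c0)) ≤ 0 := by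
  have p := sub_nonneg.2 h1
  have q := sub_nonneg.2 h2
  linarith [lamT x (by linarith), mul_nonneg (mul_nonneg p p) p, mul_nonneg (mul_nonneg p p) q,
    mul_nonneg (mul_nonneg p q) q, mul_nonneg (mul_nonneg q q) q, c0l, c0h, g0l, g0h]

lemma n43_13 (x : ℝ) (h1 : (49821 / 50000 : ℝ) ≤ x) (h2 : x ≤ (1 : ℝ)) :
    Ft x + ((34317 / 6250 : ℝ) + (-(27683 / 5000) : ℝ) * x) - (g0 + (-(907 / 2500) : ℝ) * ((2 * x ^ 2 - 1) - c0)) ≤ 0 := by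
  have p := sub_nonneg.2 h1
  have q := sub_nonneg.2 h2
  linarith [lamT x (by linarith), mul_nonneg (mul_nonneg p p) p, mul_nonneg (mul_nonneg p p) q,
    mul_nonneg (mul_nonneg p q) q, mul_nonneg (mul_nonneg q q) q, c0l, c0h, g0l, g0h]

lemma n43_14 (x : ℝ) (h1 : (49821 / 50000 : ℝ) ≤ x) (h2 : x ≤ (1 : ℝ)) :
    Ft x + ((34317 / 6250 : ℝ) + (-(27683 / 5000) : ℝ) * x) - ((34317 / 6250 : ℝ) + (-(27683 / 5000) : ℝ) * (2 * x ^ 2 - 1)) ≤ 0 := by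
  have p := sub_nonneg.2 h1
  have q := sub_nonneg.2 h2
  linarith [lamT x (by linarith), mul_nonneg (mul_nonneg p p) p, mul_nonneg (mul_nonneg p p) q,
    mul_nonneg (mul_nonneg p q) q, mul_nonneg (mul_nonneg q q) q]


end

end Pool.Agent.H38b4
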