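import Mathlib
import Pool.Agent.H.MP_38b438_an.B
import Pool.Agent.H.MP_38b438_an.C

set_option autoImplicit false

namespace Pool.Agent.H38b4

open Real

noncomputable section

lemma cell0 (x : ℝ) (a0 : (-1 : ℝ) ≤ x) (b : x ≤ (-(1997 / 2000) : ℝ)) :
    Ft x + G x - G (2 * x ^ 2 - 1) ≤ 0 := by
  rw [G0 x (by linarith [b, c0l, c0h, c1l, c1h, c2l, c2h, c3l, c3h, c4l, c4h])]
  rw [G14 (2 * x ^ 2 - 1) (by nlinarith [a0, b])]
  exact n0_14 x a0 b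

lemma cell1 (x : ℝ) (a1 : (-(1997 / 2000) : ℝ) < x) (b : x ≤ (-(99809 / 100000) : ℝ)) :
    Ft x + G x - G (2 * x ^ 2 - 1) ≤ 0 := by
  rw [G1 x (by linarith [a1, c0l, c0h, c1l, c1h, c2l, c2h, c3l, c3h, c4l, c4h]) (by linarith [b, c0l, c0h, c1l, c1h, c2l, c2h, c3l, c3h, c4l, c4h])]
  rcases le_or_gt (2 * x ^ 2 - 1) (2481 / 2500 : ℝ) with d | d
  · rw [G13 (2 * x ^ 2 - 1) (by nlinarith [a1.le, b, c0h]) d]
    exact n1_13 x a1.le b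
  · rw [G14 (2 * x ^ 2 - 1) d]
    exact n1_14 x a1.le b

lemma cell2 (x : ℝ) (a2 : (-(99809 / 100000) : ℝ) < x) (b : x ≤ c4) :
    Ft x + G x - G (2 * x ^ 2 - 1) ≤ 0 := by
  rw [G1 x (by linarith [a2, c0l, c0h, c1l, c1h, c2l, c2h, c3l, c3h, c4l, c4h]) (by linarith [b, c0l, c0h, c1l, c1h, c2l, c2h, c3l, c3h, c4l, c4h])]
  rw [G13' (2 * x ^ 2 - 1) (by rw [e0]; nlinarith [a2.le, b, c4l, c4h]) (by nlinarith [a2.le, b, c4l, c4h])]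
  exact n2_13 x a2.le b

lemma cell3 (x : ℝ) (a3 : c4 < x) (b : x ≤ (-(99197 / 100000) : ℝ)) :
    Ft x + G x - G (2 * x ^ 2 - 1) ≤ 0 := by
  rw [G2 x (by linarith [a3, c0l, c0h, c1l, c1h, c2l, c2h, c3l, c3h, c4l, c4h]) (by linarith [b, c0l, c0h, c1l, c1h, c2l, c2h, c3l, c3h, c4l, c4h])]
  rw [G12 (2 * x ^ 2 - 1) (by nlinarith [a3.le, b, c4l, c4h]) (by rw [e0]; nlinarith [a3.le, b, c4l, c4h])]
  exact n3_12 x a3.le b

lemma cell4 (x : ℝ) (a4 : (-(99197 / 100000) : ℝ) < x) (b : x ≤ (-(1983 / 2000) : ℝ)) :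
    Ft x + G x - G (2 * x ^ 2 - 1) ≤ 0 := by
  rw [G2 x (by linarith [a4, c0l, c0h, c1l, c1h, c2l, c2h, c3l, c3h, c4l, c4h]) (by linarith [b, c0l, c0h, c1l, c1h, c2l, c2h, c3l, c3h, c4l, c4h])]
  rcases le_or_gt (2 * x ^ 2 - 1) (121 / 125 : ℝ) with d | d
  · rw [G11 (2 * x ^ 2 - 1) (by nlinarith [a4.le, b, c1h]) d]
    exact n4_11 x a4.le b
  · rw [G12 (2 * x ^ 2 - 1) d (by nlinarith [a4.le, b, c0l])]
    exact n4_12 x a4.le b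

lemma cell5 (x : ℝ) (a5 : (-(1983 / 2000) : ℝ) < x) (b : x ≤ (-(197 / 200) : ℝ)) :
    Ft x + G x - G (2 * x ^ 2 - 1) ≤ 0 := by
  rw [G3 x (by linarith [a5, c0l, c0h, c1l, c1h, c2l, c2h, c3l, c3h, c4l, c4h]) (by linarith [b, c0l, c0h, c1l, c1h, c2l, c2h, c3l, c3h, c4l, c4h])]
  rw [G11 (2 * x ^ 2 - 1) (by nlinarith [a5.le, b, c1h]) (by nlinarith [a5.le, b])]
  exact n5_11 x a5.le b

lemma cell6 (x : ℝ) (a6 : (-(197 / 200) : ℝ) < x) (b : x ≤ (-(9833 / 10000) : ℝ)) :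
    Ft x + G x - G (2 * x ^ 2 - 1) ≤ 0 := by
  rw [G4 x (by linarith [a6, c0l, c0h, c1l, c1h, c2l, c2h, c3l, c3h, c4l, c4h]) (by linarith [b, c0l, c0h, c1l, c1h, c2l, c2h, c3l, c3h, c4l, c4h])]
  rw [G11 (2 * x ^ 2 - 1) (by nlinarith [a6.le, b, c1h]) (by nlinarith [a6.le, b])]
  exact n6_11 x a6.le b

lemma cell7 (x : ℝ) (a7 : (-(9833 / 10000) : ℝ) < x) (b : x ≤ (-(4903 / 5000) : ℝ)) :
    Ft x + G x - G (2 * x ^ 2 - 1) ≤ 0 := by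
  rw [G4 x (by linarith [a7, c0l, c0h, c1l, c1h, c2l, c2h, c3l, c3h, c4l, c4h]) (by linarith [b, c0l, c0h, c1l, c1h, c2l, c2h, c3l, c3h, c4l, c4h])]
  rcases le_or_gt (2 * x ^ 2 - 1) c1 with d | d
  · rw [G10 (2 * x ^ 2 - 1) (by nlinarith [a7.le, b]) d]
    exact n7_10 x a7.le b
  · rw [G11 (2 * x ^ 2 - 1) d (by nlinarith [a7.le, b])]
    exact n7_11 x a7.le b

lemma cell8 (x : ℝ) (a8 : (-(4903 / 5000) : ℝ) < x) (b : x ≤ (-(487 / 500) : ℝ)) :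
    Ft x + G x - G (2 * x ^ 2 - 1) ≤ 0 := by
  rw [G4 x (by linarith [a8, c0l, c0h, c1l, c1h, c2l, c2h, c3l, c3h, c4l, c4h]) (by linarith [b, c0l, c0h, c1l, c1h, c2l, c2h, c3l, c3h, c4l, c4h])]
  rw [G10 (2 * x ^ 2 - 1) (by nlinarith [a8.le, b]) (by nlinarith [a8.le, b, c1l])]
  exact n8_10 x a8.le b

lemma cell9 (x : ℝ) (a9 : (-(487 / 500) : ℝ) < x) (b : x ≤ (-(4779 / 5000) : ℝ)) :
    Ft x + G x - G (2 * x ^ 2 - 1) ≤ 0 := by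
  rw [G4 x (by linarith [a9, c0l, c0h, c1l, c1h, c2l, c2h, c3l, c3h, c4l, c4h]) (by linarith [b, c0l, c0h, c1l, c1h, c2l, c2h, c3l, c3h, c4l, c4h])]
  rcases le_or_gt (2 * x ^ 2 - 1) (431 / 500 : ℝ) with d | d
  · rw [G9 (2 * x ^ 2 - 1) (by nlinarith [a9.le, b, c2h]) d]
    exact n9_9 x a9.le b
  · rw [G10 (2 * x ^ 2 - 1) d (by nlinarith [a9.le, b, c1l])]
    exact n9_10 x a9.le b

lemma cell10 (x : ℝ) (a10 : (-(4779 / 5000) : ℝ) < x) (b : x ≤ (-(114 / 125) : ℝ)) :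
    Ft x + G x - G (2 * x ^ 2 - 1) ≤ 0 := by
  rw [G4 x (by linarith [a10, c0l, c0h, c1l, c1h, c2l, c2h, c3l, c3h, c4l, c4h]) (by linarith [b, c0l, c0h, c1l, c1h, c2l, c2h, c3l, c3h, c4l, c4h])]
  rcases le_or_gt (2 * x ^ 2 - 1) c2 with d | d
  · rw [G8 (2 * x ^ 2 - 1) (by nlinarith [a10.le, b]) d]
    exact n10_8 x a10.le b
  · rw [G9 (2 * x ^ 2 - 1) d (by nlinarith [a10.le, b])]
    exact n10_9 x a10.le b

lemma cell11 (x : ℝ) (a11 : (-(114 / 125) : ℝ) < x) (b : x ≤ (-(773 / 1000) : ℝ)) :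
    Ft x + G x - G (2 * x ^ 2 - 1) ≤ 0 := by
  rw [G5 x (by linarith [a11, c0l, c0h, c1l, c1h, c2l, c2h, c3l, c3h, c4l, c4h]) (by linarith [b, c0l, c0h, c1l, c1h, c2l, c2h, c3l, c3h, c4l, c4h])]
  rcases le_or_gt (2 * x ^ 2 - 1) (167 / 500 : ℝ) with d | d
  · rw [G7 (2 * x ^ 2 - 1) (by nlinarith [a11.le, b, c3h]) d]
    exact n11_7 x a11.le b
  · rw [G8 (2 * x ^ 2 - 1) d (by nlinarith [a11.le, b, c2l])]
    exact n11_8 x a11.le b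

lemma cell12 (x : ℝ) (a12 : (-(773 / 1000) : ℝ) < x) (b : x ≤ (-(27 / 40) : ℝ)) :
    Ft x + G x - G (2 * x ^ 2 - 1) ≤ 0 := by
  rw [G5 x (by linarith [a12, c0l, c0h, c1l, c1h, c2l, c2h, c3l, c3h, c4l, c4h]) (by linarith [b, c0l, c0h, c1l, c1h, c2l, c2h, c3l, c3h, c4l, c4h])]
  rcases le_or_gt (2 * x ^ 2 - 1) c3 with d | d
  · rw [G6 (2 * x ^ 2 - 1) (by nlinarith [a12.le, b]) d]
    exact n12_6 x a12.le b
  · rw [G7 (2 * x ^ 2 - 1) d (by nlinarith [a12.le, b])]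
    exact n12_7 x a12.le b

lemma cell13 (x : ℝ) (a13 : (-(27 / 40) : ℝ) < x) (b : x ≤ (-(13 / 25) : ℝ)) :
    Ft x + G x - G (2 * x ^ 2 - 1) ≤ 0 := by
  rw [G5 x (by linarith [a13, c0l, c0h, c1l, c1h, c2l, c2h, c3l, c3h, c4l, c4h]) (by linarith [b, c0l, c0h, c1l, c1h, c2l, c2h, c3l, c3h, c4l, c4h])]
  rw [G6 (2 * x ^ 2 - 1) (by nlinarith [a13.le, b]) (by nlinarith [a13.le, b, c3l])]
  exact n13_6 x a13.le b

lemma cell14 (x : ℝ) (a14 : (-(13 / 25) : ℝ) < x) (b : x ≤ (-(259 / 1000) : ℝ)) :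
    Ft x + G x - G (2 * x ^ 2 - 1) ≤ 0 := by
  rw [G6 x (by linarith [a14, c0l, c0h, c1l, c1h, c2l, c2h, c3l, c3h, c4l, c4h]) (by linarith [b, c0l, c0h, c1l, c1h, c2l, c2h, c3l, c3h, c4l, c4h])]
  rcases le_or_gt (2 * x ^ 2 - 1) (-(13 / 25) : ℝ) with d | d
  · rw [G5 (2 * x ^ 2 - 1) (by nlinarith [a14.le, b]) d]
    exact n14_5 x a14.le b
  · rw [G6 (2 * x ^ 2 - 1) d (by nlinarith [a14.le, b, c3l])]
    exact n14_6 x a14.le b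

lemma cell15 (x : ℝ) (a15 : (-(259 / 1000) : ℝ) < x) (b : x ≤ (-(161 / 1000) : ℝ)) :
    Ft x + G x - G (2 * x ^ 2 - 1) ≤ 0 := by
  rw [G6 x (by linarith [a15, c0l, c0h, c1l, c1h, c2l, c2h, c3l, c3h, c4l, c4h]) (by linarith [b, c0l, c0h, c1l, c1h, c2l, c2h, c3l, c3h, c4l, c4h])]
  rcases le_or_gt (2 * x ^ 2 - 1) (-(114 / 125) : ℝ) with d | d
  · rw [G4 (2 * x ^ 2 - 1) (by nlinarith [a15.le, b]) d]
    exact n15_4 x a15.le b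
  · rw [G5 (2 * x ^ 2 - 1) d (by nlinarith [a15.le, b])]
    exact n15_5 x a15.le b

lemma cell16 (x : ℝ) (a16 : (-(161 / 1000) : ℝ) < x) (b : x ≤ (-(13 / 100) : ℝ)) :
    Ft x + G x - G (2 * x ^ 2 - 1) ≤ 0 := by
  rw [G6 x (by linarith [a16, c0l, c0h, c1l, c1h, c2l, c2h, c3l, c3h, c4l, c4h]) (by linarith [b, c0l, c0h, c1l, c1h, c2l, c2h, c3l, c3h, c4l, c4h])]
  rw [G4 (2 * x ^ 2 - 1) (by nlinarith [a16.le, b]) (by nlinarith [a16.le, b])]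
  exact n16_4 x a16.le b

lemma cell17 (x : ℝ) (a17 : (-(13 / 100) : ℝ) < x) (b : x ≤ (-(367 / 5000) : ℝ)) :
    Ft x + G x - G (2 * x ^ 2 - 1) ≤ 0 := by
  rw [G6 x (by linarith [a17, c0l, c0h, c1l, c1h, c2l, c2h, c3l, c3h, c4l, c4h]) (by linarith [b, c0l, c0h, c1l, c1h, c2l, c2h, c3l, c3h, c4l, c4h])]
  rcases le_or_gt (2 * x ^ 2 - 1) (-(197 / 200) : ℝ) with d | d
  · rw [G3 (2 * x ^ 2 - 1) (by nlinarith [a17.le, b]) d]
    exact n17_3 x a17.le b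
  · rw [G4 (2 * x ^ 2 - 1) d (by nlinarith [a17.le, b])]
    exact n17_4 x a17.le b

lemma cell18 (x : ℝ) (a18 : (-(367 / 5000) : ℝ) < x) (b : x ≤ (-(8 / 125) : ℝ)) :
    Ft x + G x - G (2 * x ^ 2 - 1) ≤ 0 := by
  rw [G6 x (by linarith [a18, c0l, c0h, c1l, c1h, c2l, c2h, c3l, c3h, c4l, c4h]) (by linarith [b, c0l, c0h, c1l, c1h, c2l, c2h, c3l, c3h, c4l, c4h])]
  rcases le_or_gt (2 * x ^ 2 - 1) (-(1983 / 2000) : ℝ) with d | d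
  · rw [G2 (2 * x ^ 2 - 1) (by nlinarith [a18.le, b, c4h]) d]
    exact n18_2 x a18.le b
  · rw [G3 (2 * x ^ 2 - 1) d (by nlinarith [a18.le, b])]
    exact n18_3 x a18.le b

lemma cell19 (x : ℝ) (a19 : (-(8 / 125) : ℝ) < x) (b : x ≤ (-(31 / 1000) : ℝ)) :
    Ft x + G x - G (2 * x ^ 2 - 1) ≤ 0 := by
  rw [G6 x (by linarith [a19, c0l, c0h, c1l, c1h, c2l, c2h, c3l, c3h, c4l, c4h]) (by linarith [b, c0l, c0h, c1l, c1h, c2l, c2h, c3l, c3h, c4l, c4h])]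
  rcases le_or_gt (2 * x ^ 2 - 1) c4 with d | d
  · rw [G1 (2 * x ^ 2 - 1) (by nlinarith [a19.le, b]) d]
    exact n19_1 x a19.le b
  · rw [G2 (2 * x ^ 2 - 1) d (by nlinarith [a19.le, b])]
    exact n19_2 x a19.le b

lemma cell20 (x : ℝ) (a20 : (-(31 / 1000) : ℝ) < x) (b : x ≤ (0 : ℝ)) :
    Ft x + G x - G (2 * x ^ 2 - 1) ≤ 0 := by
  rw [G6 x (by linarith [a20, c0l, c0h, c1l, c1h, c2l, c2h, c3l, c3h, c4l, c4h]) (by linarith [b, c0l, c0h, c1l, c1h, c2l, c2h, c3l, c3h, c4l, c4h])]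
  rcases le_or_gt (2 * x ^ 2 - 1) (-(1997 / 2000) : ℝ) with d | d
  · rw [G0 (2 * x ^ 2 - 1) d]
    exact n20_0 x a20.le b
  · rw [G1 (2 * x ^ 2 - 1) d (by nlinarith [a20.le, b, c4l])]
    exact n20_1 x a20.le b

lemma cell21 (x : ℝ) (a21 : (0 : ℝ) < x) (b : x ≤ (693 / 25000 : ℝ)) :
    Ft x + G x - G (2 * x ^ 2 - 1) ≤ 0 := by
  rw [G6 x (by linarith [a21, c0l, c0h, c1l, c1h, c2l, c2h, c3l, c3h, c4l, c4h]) (by linarith [b, c0l, c0h, c1l, c1h, c2l, c2h, c3l, c3h, c4l, c4h])]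
  rcases le_or_gt (2 * x ^ 2 - 1) (-(1997 / 2000) : ℝ) with d | d
  · rw [G0 (2 * x ^ 2 - 1) d]
    exact n21_0 x a21.le b
  · rw [G1 (2 * x ^ 2 - 1) d (by nlinarith [a21.le, b, c4l])]
    exact n21_1 x a21.le b

lemma cell22 (x : ℝ) (a22 : (693 / 25000 : ℝ) < x) (b : x ≤ c3) :
    Ft x + G x - G (2 * x ^ 2 - 1) ≤ 0 := by
  rw [G6 x (by linarith [a22, c0l, c0h, c1l, c1h, c2l, c2h, c3l, c3h, c4l, c4h]) (by linarith [b, c0l, c0h, c1l, c1h, c2l, c2h, c3l, c3h, c4l, c4h])]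
  rw [G1 (2 * x ^ 2 - 1) (by nlinarith [a22.le, b, c3l, c3h]) (by rw [e4]; nlinarith [a22.le, b, c3l, c3h])]
  exact n22_1 x a22.le b

lemma cell23 (x : ℝ) (a23 : c3 < x) (b : x ≤ (1619 / 25000 : ℝ)) :
    Ft x + G x - G (2 * x ^ 2 - 1) ≤ 0 := by
  rw [G7 x (by linarith [a23, c0l, c0h, c1l, c1h, c2l, c2h, c3l, c3h, c4l, c4h]) (by linarith [b, c0l, c0h, c1l, c1h, c2l, c2h, c3l, c3h, c4l, c4h])]
  rw [G2' (2 * x ^ 2 - 1) (by rw [e4]; nlinarith [a23.le, b, c3l, c3h]) (by nlinarith [a23.le, b, c3l, c3h])]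
  exact n23_2 x a23.le b

lemma cell24 (x : ℝ) (a24 : (1619 / 25000 : ℝ) < x) (b : x ≤ (721 / 10000 : ℝ)) :
    Ft x + G x - G (2 * x ^ 2 - 1) ≤ 0 := by
  rw [G7 x (by linarith [a24, c0l, c0h, c1l, c1h, c2l, c2h, c3l, c3h, c4l, c4h]) (by linarith [b, c0l, c0h, c1l, c1h, c2l, c2h, c3l, c3h, c4l, c4h])]
  rcases le_or_gt (2 * x ^ 2 - 1) (-(1983 / 2000) : ℝ) with d | d
  · rw [G2 (2 * x ^ 2 - 1) (by nlinarith [a24.le, b, c4h]) d]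
    exact n24_2 x a24.le b
  · rw [G3 (2 * x ^ 2 - 1) d (by nlinarith [a24.le, b])]
    exact n24_3 x a24.le b

lemma cell25 (x : ℝ) (a25 : (721 / 10000 : ℝ) < x) (b : x ≤ (3 / 25 : ℝ)) :
    Ft x + G x - G (2 * x ^ 2 - 1) ≤ 0 := by
  rw [G7 x (by linarith [a25, c0l, c0h, c1l, c1h, c2l, c2h, c3l, c3h, c4l, c4h]) (by linarith [b, c0l, c0h, c1l, c1h, c2l, c2h, c3l, c3h, c4l, c4h])]
  rcases le_or_gt (2 * x ^ 2 - 1) (-(197 / 200) : ℝ) with d | d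
  · rw [G3 (2 * x ^ 2 - 1) (by nlinarith [a25.le, b]) d]
    exact n25_3 x a25.le b
  · rw [G4 (2 * x ^ 2 - 1) d (by nlinarith [a25.le, b])]
    exact n25_4 x a25.le b

lemma cell26 (x : ℝ) (a26 : (3 / 25 : ℝ) < x) (b : x ≤ (167 / 500 : ℝ)) :
    Ft x + G x - G (2 * x ^ 2 - 1) ≤ 0 := by
  rw [G7 x (by linarith [a26, c0l, c0h, c1l, c1h, c2l, c2h, c3l, c3h, c4l, c4h]) (by linarith [b, c0l, c0h, c1l, c1h, c2l, c2h, c3l, c3h, c4l, c4h])]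
  rcases le_or_gt (2 * x ^ 2 - 1) (-(114 / 125) : ℝ) with d | d
  · rw [G4 (2 * x ^ 2 - 1) (by nlinarith [a26.le, b]) d]
    exact n26_4 x a26.le b
  · rw [G5 (2 * x ^ 2 - 1) d (by nlinarith [a26.le, b])]
    exact n26_5 x a26.le b

lemma cell27 (x : ℝ) (a27 : (167 / 500 : ℝ) < x) (b : x ≤ (4899 / 10000 : ℝ)) :
    Ft x + G x - G (2 * x ^ 2 - 1) ≤ 0 := by
  rw [G8 x (by linarith [a27, c0l, c0h, c1l, c1h, c2l, c2h, c3l, c3h, c4l, c4h]) (by linarith [b, c0l, c0h, c1l, c1h, c2l, c2h, c3l, c3h, c4l, c4h])]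
  rcases le_or_gt (2 * x ^ 2 - 1) (-(13 / 25) : ℝ) with d | d
  · rw [G5 (2 * x ^ 2 - 1) (by nlinarith [a27.le, b]) d]
    exact n27_5 x a27.le b
  · rw [G6 (2 * x ^ 2 - 1) d (by nlinarith [a27.le, b, c3l])]
    exact n27_6 x a27.le b

lemma cell28 (x : ℝ) (a28 : (4899 / 10000 : ℝ) < x) (b : x ≤ c2) :
    Ft x + G x - G (2 * x ^ 2 - 1) ≤ 0 := by
  rw [G8 x (by linarith [a28, c0l, c0h, c1l, c1h, c2l, c2h, c3l, c3h, c4l, c4h]) (by linarith [b, c0l, c0h, c1l, c1h, c2l, c2h, c3l, c3h, c4l, c4h])]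
  rw [G6 (2 * x ^ 2 - 1) (by nlinarith [a28.le, b, c2l, c2h]) (by rw [e3]; nlinarith [a28.le, b, c2l, c2h])]
  exact n28_6 x a28.le b

lemma cell29 (x : ℝ) (a29 : c2 < x) (b : x ≤ (81637 / 100000 : ℝ)) :
    Ft x + G x - G (2 * x ^ 2 - 1) ≤ 0 := by
  rw [G9 x (by linarith [a29, c0l, c0h, c1l, c1h, c2l, c2h, c3l, c3h, c4l, c4h]) (by linarith [b, c0l, c0h, c1l, c1h, c2l, c2h, c3l, c3h, c4l, c4h])]
  rw [G7' (2 * x ^ 2 - 1) (by rw [e3]; nlinarith [a29.le, b, c2l, c2h]) (by nlinarith [a29.le, b, c2l, c2h])]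
  exact n29_7 x a29.le b

lemma cell30 (x : ℝ) (a30 : (81637 / 100000 : ℝ) < x) (b : x ≤ (431 / 500 : ℝ)) :
    Ft x + G x - G (2 * x ^ 2 - 1) ≤ 0 := by
  rw [G9 x (by linarith [a30, c0l, c0h, c1l, c1h, c2l, c2h, c3l, c3h, c4l, c4h]) (by linarith [b, c0l, c0h, c1l, c1h, c2l, c2h, c3l, c3h, c4l, c4h])]
  rcases le_or_gt (2 * x ^ 2 - 1) (167 / 500 : ℝ) with d | d
  · rw [G7 (2 * x ^ 2 - 1) (by nlinarith [a30.le, b, c3h]) d]
    exact n30_7 x a30.le b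
  · rw [G8 (2 * x ^ 2 - 1) d (by nlinarith [a30.le, b, c2l])]
    exact n30_8 x a30.le b

lemma cell31 (x : ℝ) (a31 : (431 / 500 : ℝ) < x) (b : x ≤ c1) :
    Ft x + G x - G (2 * x ^ 2 - 1) ≤ 0 := by
  rw [G10 x (by linarith [a31, c0l, c0h, c1l, c1h, c2l, c2h, c3l, c3h, c4l, c4h]) (by linarith [b, c0l, c0h, c1l, c1h, c2l, c2h, c3l, c3h, c4l, c4h])]
  rw [G8 (2 * x ^ 2 - 1) (by nlinarith [a31.le, b, c1l, c1h]) (by rw [e2]; nlinarith [a31.le, b, c1l, c1h])]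
  exact n31_8 x a31.le b

lemma cell32 (x : ℝ) (a32 : c1 < x) (b : x ≤ (48241 / 50000 : ℝ)) :
    Ft x + G x - G (2 * x ^ 2 - 1) ≤ 0 := by
  rw [G11 x (by linarith [a32, c0l, c0h, c1l, c1h, c2l, c2h, c3l, c3h, c4l, c4h]) (by linarith [b, c0l, c0h, c1l, c1h, c2l, c2h, c3l, c3h, c4l, c4h])]
  rw [G9' (2 * x ^ 2 - 1) (by rw [e2]; nlinarith [a32.le, b, c1l, c1h]) (by nlinarith [a32.le, b, c1l, c1h])]
  exact n32_9 x a32.le b

lemma cell33 (x : ℝ) (a33 : (48241 / 50000 : ℝ) < x) (b : x ≤ (121 / 125 : ℝ)) :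
    Ft x + G x - G (2 * x ^ 2 - 1) ≤ 0 := by
  rw [G11 x (by linarith [a33, c0l, c0h, c1l, c1h, c2l, c2h, c3l, c3h, c4l, c4h]) (by linarith [b, c0l, c0h, c1l, c1h, c2l, c2h, c3l, c3h, c4l, c4h])]
  rcases le_or_gt (2 * x ^ 2 - 1) (431 / 500 : ℝ) with d | d
  · rw [G9 (2 * x ^ 2 - 1) (by nlinarith [a33.le, b, c2h]) d]
    exact n33_9 x a33.le b
  · rw [G10 (2 * x ^ 2 - 1) d (by nlinarith [a33.le, b, c1l])]
    exact n33_10 x a33.le b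

lemma cell34 (x : ℝ) (a34 : (121 / 125 : ℝ) < x) (b : x ≤ c0) :
    Ft x + G x - G (2 * x ^ 2 - 1) ≤ 0 := by
  rw [G12 x (by linarith [a34, c0l, c0h, c1l, c1h, c2l, c2h, c3l, c3h, c4l, c4h]) (by linarith [b, c0l, c0h, c1l, c1h, c2l, c2h, c3l, c3h, c4l, c4h])]
  rw [G10 (2 * x ^ 2 - 1) (by nlinarith [a34.le, b, c0l, c0h]) (by rw [e1]; nlinarith [a34.le, b, c0l, c0h])]
  exact n34_10 x a34.le b

lemma cell35 (x : ℝ) (a35 : c0 < x) (b : x ≤ (19839 / 20000 : ℝ)) :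
    Ft x + G x - G (2 * x ^ 2 - 1) ≤ 0 := by
  rw [G13 x (by linarith [a35, c0l, c0h, c1l, c1h, c2l, c2h, c3l, c3h, c4l, c4h]) (by linarith [b, c0l, c0h, c1l, c1h, c2l, c2h, c3l, c3h, c4l, c4h])]
  rw [G11' (2 * x ^ 2 - 1) (by rw [e1]; nlinarith [a35.le, b, c0l, c0h]) (by nlinarith [a35.le, b, c0l, c0h])]
  exact n35_11 x a35.le b

lemma cell36 (x : ℝ) (a36 : (19839 / 20000 : ℝ) < x) (b : x ≤ (2481 / 2500 : ℝ)) :
    Ft x + G x - G (2 * x ^ 2 - 1) ≤ 0 := by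
  rw [G13 x (by linarith [a36, c0l, c0h, c1l, c1h, c2l, c2h, c3l, c3h, c4l, c4h]) (by linarith [b, c0l, c0h, c1l, c1h, c2l, c2h, c3l, c3h, c4l, c4h])]
  rcases le_or_gt (2 * x ^ 2 - 1) (121 / 125 : ℝ) with d | d
  · rw [G11 (2 * x ^ 2 - 1) (by nlinarith [a36.le, b, c1h]) d]
    exact n36_11 x a36.le b
  · rw [G12 (2 * x ^ 2 - 1) d (by nlinarith [a36.le, b, c0l])]
    exact n36_12 x a36.le b

lemma cell37 (x : ℝ) (a37 : (2481 / 2500 : ℝ) < x) (b : x ≤ (24863 / 25000 : ℝ)) :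
    Ft x + G x - G (2 * x ^ 2 - 1) ≤ 0 := by
  rw [G14 x (by linarith [a37, c0l, c0h, c1l, c1h, c2l, c2h, c3l, c3h, c4l, c4h])]
  rw [G12 (2 * x ^ 2 - 1) (by nlinarith [a37.le, b]) (by nlinarith [a37.le, b, c0l])]
  exact n37_12 x a37.le b

lemma cell38 (x : ℝ) (a38 : (24863 / 25000 : ℝ) < x) (b : x ≤ (99523 / 100000 : ℝ)) :
    Ft x + G x - G (2 * x ^ 2 - 1) ≤ 0 := by
  rw [G14 x (by linarith [a38, c0l, c0h, c1l, c1h, c2l, c2h, c3l, c3h, c4l, c4h])]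
  rw [G12 (2 * x ^ 2 - 1) (by nlinarith [a38.le, b]) (by nlinarith [a38.le, b, c0l])]
  exact n38_12 x a38.le b

lemma cell39 (x : ℝ) (a39 : (99523 / 100000 : ℝ) < x) (b : x ≤ (248853 / 250000 : ℝ)) :
    Ft x + G x - G (2 * x ^ 2 - 1) ≤ 0 := by
  rw [G14 x (by linarith [a39, c0l, c0h, c1l, c1h, c2l, c2h, c3l, c3h, c4l, c4h])]
  rw [G12 (2 * x ^ 2 - 1) (by nlinarith [a39.le, b]) (by nlinarith [a39.le, b, c0l])]
  exact n39_12 x a39.le b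

lemma cell40 (x : ℝ) (a40 : (248853 / 250000 : ℝ) < x) (b : x ≤ (248883 / 250000 : ℝ)) :
    Ft x + G x - G (2 * x ^ 2 - 1) ≤ 0 := by
  rw [G14 x (by linarith [a40, c0l, c0h, c1l, c1h, c2l, c2h, c3l, c3h, c4l, c4h])]
  rcases le_or_gt (2 * x ^ 2 - 1) c0 with d | d
  · rw [G12 (2 * x ^ 2 - 1) (by nlinarith [a40.le, b]) d]
    exact n40_12 x a40.le b
  · rw [G13 (2 * x ^ 2 - 1) d (by nlinarith [a40.le, b])]
    exact n40_13 x a40.le b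

lemma cell41 (x : ℝ) (a41 : (248883 / 250000 : ℝ) < x) (b : x ≤ (99571 / 100000 : ℝ)) :
    Ft x + G x - G (2 * x ^ 2 - 1) ≤ 0 := by
  rw [G14 x (by linarith [a41, c0l, c0h, c1l, c1h, c2l, c2h, c3l, c3h, c4l, c4h])]
  rw [G13 (2 * x ^ 2 - 1) (by nlinarith [a41.le, b, c0h]) (by nlinarith [a41.le, b])]
  exact n41_13 x a41.le b

lemma cell42 (x : ℝ) (a42 : (99571 / 100000 : ℝ) < x) (b : x ≤ (49821 / 50000 : ℝ)) :
    Ft x + G x - G (2 * x ^ 2 - 1) ≤ 0 := by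
  rw [G14 x (by linarith [a42, c0l, c0h, c1l, c1h, c2l, c2h, c3l, c3h, c4l, c4h])]
  rw [G13 (2 * x ^ 2 - 1) (by nlinarith [a42.le, b, c0h]) (by nlinarith [a42.le, b])]
  exact n42_13 x a42.le b

lemma cell43 (x : ℝ) (a43 : (49821 / 50000 : ℝ) < x) (b : x ≤ (1 : ℝ)) :
    Ft x + G x - G (2 * x ^ 2 - 1) ≤ 0 := by
  rw [G14 x (by linarith [a43, c0l, c0h, c1l, c1h, c2l, c2h, c3l, c3h, c4l, c4h])]
  rcases le_or_gt (2 * x ^ 2 - 1) (2481 / 2500 : ℝ) with d | d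
  · rw [G13 (2 * x ^ 2 - 1) (by nlinarith [a43.le, b, c0h]) d]
    exact n43_13 x a43.le b
  · rw [G14 (2 * x ^ 2 - 1) d]
    exact n43_14 x a43.le b

theorem sub_action (x : ℝ) (hx : |x| ≤ 1) : Ft x + G x - G (2 * x ^ 2 - 1) ≤ 0 := by
  obtain ⟨a0, hx1⟩ := abs_le.1 hx
  rcases le_or_gt x (-(1997 / 2000) : ℝ) with b | a1
  · exact cell0 x a0 b
  rcases le_or_gt x (-(99809 / 100000) : ℝ) with b | a2
  · exact cell1 x a1 b
  rcases le_or_gt x c4 with b | a3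
  · exact cell2 x a2 b
  rcases le_or_gt x (-(99197 / 100000) : ℝ) with b | a4
  · exact cell3 x a3 b
  rcases le_or_gt x (-(1983 / 2000) : ℝ) with b | a5
  · exact cell4 x a4 b
  rcases le_or_gt x (-(197 / 200) : ℝ) with b | a6
  · exact cell5 x a5 b
  rcases le_or_gt x (-(9833 / 10000) : ℝ) with b | a7
  · exact cell6 x a6 b
  rcases le_or_gt x (-(4903 / 5000) : ℝ) with b | a8
  · exact cell7 x a7 b
  rcases le_or_gt x (-(487 / 500) : ℝ) with b | a9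
  · exact cell8 x a8 b
  rcases le_or_gt x (-(4779 / 5000) : ℝ) with b | a10
  · exact cell9 x a9 b
  rcases le_or_gt x (-(114 / 125) : ℝ) with b | a11
  · exact cell10 x a10 b
  rcases le_or_gt x (-(773 / 1000) : ℝ) with b | a12
  · exact cell11 x a11 b
  rcases le_or_gt x (-(27 / 40) : ℝ) with b | a13
  · exact cell12 x a12 b
  rcases le_or_gt x (-(13 / 25) : ℝ) with b | a14
  · exact cell13 x a13 b
  rcases le_or_gt x (-(259 / 1000) : ℝ) with b | a15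
  · exact cell14 x a14 b
  rcases le_or_gt x (-(161 / 1000) : ℝ) with b | a16
  · exact cell15 x a15 b
  rcases le_or_gt x (-(13 / 100) : ℝ) with b | a17
  · exact cell16 x a16 b
  rcases le_or_gt x (-(367 / 5000) : ℝ) with b | a18
  · exact cell17 x a17 b
  rcases le_or_gt x (-(8 / 125) : ℝ) with b | a19
  · exact cell18 x a18 b
  rcases le_or_gt x (-(31 / 1000) : ℝ) with b | a20
  · exact cell19 x a19 b
  rcases le_or_gt x (0 : ℝ) with b | a21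
  · exact cell20 x a20 b
  rcases le_or_gt x (693 / 25000 : ℝ) with b | a22
  · exact cell21 x a21 b
  rcases le_or_gt x c3 with b | a23
  · exact cell22 x a22 b
  rcases le_or_gt x (1619 / 25000 : ℝ) with b | a24
  · exact cell23 x a23 b
  rcases le_or_gt x (721 / 10000 : ℝ) with b | a25
  · exact cell24 x a24 b
  rcases le_or_gt x (3 / 25 : ℝ) with b | a26
  · exact cell25 x a25 b
  rcases le_or_gt x (167 / 500 : ℝ) with b | a27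
  · exact cell26 x a26 b
  rcases le_or_gt x (4899 / 10000 : ℝ) with b | a28
  · exact cell27 x a27 b
  rcases le_or_gt x c2 with b | a29
  · exact cell28 x a28 b
  rcases le_or_gt x (81637 / 100000 : ℝ) with b | a30
  · exact cell29 x a29 b
  rcases le_or_gt x (431 / 500 : ℝ) with b | a31
  · exact cell30 x a30 b
  rcases le_or_gt x c1 with b | a32
  · exact cell31 x a31 b
  rcases le_or_gt x (48241 / 50000 : ℝ) with b | a33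
  · exact cell32 x a32 b
  rcases le_or_gt x (121 / 125 : ℝ) with b | a34
  · exact cell33 x a33 b
  rcases le_or_gt x c0 with b | a35
  · exact cell34 x a34 b
  rcases le_or_gt x (19839 / 20000 : ℝ) with b | a36
  · exact cell35 x a35 b
  rcases le_or_gt x (2481 / 2500 : ℝ) with b | a37
  · exact cell36 x a36 b
  rcases le_or_gt x (24863 / 25000 : ℝ) with b | a38
  · exact cell37 x a37 b
  rcases le_or_gt x (99523 / 100000 : ℝ) with b | a39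
  · exact cell38 x a38 b
  rcases le_or_gt x (248853 / 250000 : ℝ) with b | a40
  · exact cell39 x a39 b
  rcases le_or_gt x (248883 / 250000 : ℝ) with b | a41
  · exact cell40 x a40 b
  rcases le_or_gt x (99571 / 100000 : ℝ) with b | a42
  · exact cell41 x a41 b
  rcases le_or_gt x (49821 / 50000 : ℝ) with b | a43
  · exact cell42 x a42 b
  exact cell43 x a43 hx1

end

end Pool.Agent.H38b4
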